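import Mathlib

/-! Counting lemmas: second moment of the number of prime factors, rare divisors, orders. -/

set_option autoImplicit false

open Finset

namespace Pool.Agent.R518.RS

/-- number of elements of `P` dividing `i` -/
def om (P : Finset ℕ) (i : ℕ) : ℕ := (P.filter (fun p => p ∣ i)).card

lemma om_cast (P : Finset ℕ) (i : ℕ) : (om P i : ℝ) = ∑ p ∈ P, if p ∣ i then (1 : ℝ) else 0 := by
  unfold om
  rw [Finset.card_filter]
  push_cast
  rfl

lemma card_dvd (N d : ℕ) : (∑ i ∈ Ioc 0 N, if d ∣ i then (1 : ℝ) else 0) = ((N / d : ℕ) : ℝ) := by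
  rw [← Nat.Ioc_filter_dvd_card_eq_div, Finset.card_filter]
  push_cast
  rfl

theorem second_moment (P : Finset ℕ) (hP : ∀ p ∈ P, p.Prime) (N : ℕ) (mu : ℝ)
    (hmu : mu = ∑ p ∈ P, 1 / (p : ℝ)) :
    ∑ i ∈ Ioc 0 N, ((om P i : ℝ) - mu) ^ 2 ≤ N * mu + 2 * mu * P.card := by
  have hmu0 : 0 ≤ mu := by
    rw [hmu]; exact Finset.sum_nonneg (fun p _ => by positivity)
  have h1 : (N : ℝ) * mu - P.card ≤ ∑ i ∈ Ioc 0 N, (om P i : ℝ) := by
    simp_rw [om_cast]
    rw [Finset.sum_comm]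
    simp_rw [card_dvd]
    have hsum : (N : ℝ) * mu - P.card = ∑ p ∈ P, ((N : ℝ) * (1 / (p : ℝ)) - 1) := by
      rw [hmu, Finset.sum_sub_distrib, ← Finset.mul_sum]
      simp
    rw [hsum]
    apply Finset.sum_le_sum
    intro p hp
    have hp0 : (0 : ℝ) < p := by exact_mod_cast (hP p hp).pos
    have h2 : (N : ℝ) / p < ((N / p : ℕ) : ℝ) + 1 := by
      rw [div_lt_iff₀ hp0]
      have h3 := Nat.lt_div_mul_add (a := N) (hP p hp).pos
      have h4 : (N : ℝ) < ((N / p * p + p : ℕ) : ℝ) := by exact_mod_cast h3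
      push_cast at h4
      linarith
    have h3 : (N : ℝ) * (1 / p) = N / p := by ring
    linarith
  have h2 : ∑ i ∈ Ioc 0 N, (om P i : ℝ) ^ 2 ≤ N * mu ^ 2 + N * mu := by
    have h3 : ∀ i, (om P i : ℝ) ^ 2 = ∑ p ∈ P, ∑ q ∈ P,
        (if p ∣ i then (1 : ℝ) else 0) * (if q ∣ i then (1 : ℝ) else 0) := by
      intro i
      rw [sq, om_cast, Finset.sum_mul_sum]
    simp_rw [h3]
    rw [Finset.sum_comm]
    have h4 : ∀ p ∈ P, ∑ i ∈ Ioc 0 N, ∑ q ∈ P,
        (if p ∣ i then (1 : ℝ) else 0) * (if q ∣ i then (1 : ℝ) else 0) ≤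
        N * (1 / (p : ℝ)) * mu + N * (1 / (p : ℝ)) := by
      intro p hp
      have hp0 : (0 : ℝ) < p := by exact_mod_cast (hP p hp).pos
      rw [Finset.sum_comm, ← Finset.add_sum_erase P _ hp]
      have h5 : ∑ i ∈ Ioc 0 N, (if p ∣ i then (1 : ℝ) else 0) * (if p ∣ i then (1 : ℝ) else 0) ≤
          N * (1 / (p : ℝ)) := by
        have : ∀ i ∈ Ioc 0 N, (if p ∣ i then (1 : ℝ) else 0) * (if p ∣ i then (1 : ℝ) else 0) =
            if p ∣ i then (1 : ℝ) else 0 := by
          intro i _; split_ifs <;> simp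
        rw [Finset.sum_congr rfl this, card_dvd]
        refine Nat.cast_div_le.trans (le_of_eq ?_)
        ring
      have h6 : ∑ q ∈ P.erase p, ∑ i ∈ Ioc 0 N,
          (if p ∣ i then (1 : ℝ) else 0) * (if q ∣ i then (1 : ℝ) else 0) ≤
          N * (1 / (p : ℝ)) * mu := by
        calc ∑ q ∈ P.erase p, ∑ i ∈ Ioc 0 N,
          (if p ∣ i then (1 : ℝ) else 0) * (if q ∣ i then (1 : ℝ) else 0) ≤
            ∑ q ∈ P.erase p, N * (1 / (p : ℝ)) * (1 / (q : ℝ)) := by
              apply Finset.sum_le_sum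
              intro q hq
              have hqP := Finset.mem_of_mem_erase hq
              have hqp := Finset.ne_of_mem_erase hq
              have hcop : Nat.Coprime p q := (Nat.coprime_primes (hP p hp) (hP q hqP)).2 hqp.symm
              have : ∀ i ∈ Ioc 0 N, (if p ∣ i then (1 : ℝ) else 0) * (if q ∣ i then (1 : ℝ) else 0) =
                  if p * q ∣ i then (1 : ℝ) else 0 := by
                intro i _
                by_cases h1 : p ∣ i
                · by_cases h2 : q ∣ i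
                  · simp [h1, h2, hcop.mul_dvd_of_dvd_of_dvd h1 h2]
                  · have : ¬ p * q ∣ i := fun h => h2 ((Dvd.intro_left p rfl).trans h)
                    simp [h2, this]
                · have : ¬ p * q ∣ i := fun h => h1 ((Dvd.intro q rfl).trans h)
                  simp [h1, this]
              rw [Finset.sum_congr rfl this, card_dvd]
              refine Nat.cast_div_le.trans (le_of_eq ?_)
              have hq0 : (0 : ℝ) < q := by exact_mod_cast (hP q hqP).pos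
              push_cast
              field_simp
          _ ≤ ∑ q ∈ P, N * (1 / (p : ℝ)) * (1 / (q : ℝ)) := by
              apply Finset.sum_le_sum_of_subset_of_nonneg (Finset.erase_subset _ _)
              intro q _ _
              positivity
          _ = _ := by rw [← Finset.mul_sum, hmu]
      linarith
    refine (Finset.sum_le_sum h4).trans (le_of_eq ?_)
    rw [Finset.sum_add_distrib, ← Finset.sum_mul, ← Finset.mul_sum, ← hmu]
    ring
  have h3 : ∑ i ∈ Ioc 0 N, ((om P i : ℝ) - mu) ^ 2 =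
      ∑ i ∈ Ioc 0 N, (om P i : ℝ) ^ 2 - 2 * mu * ∑ i ∈ Ioc 0 N, (om P i : ℝ) + N * mu ^ 2 := by
    have : ∀ i ∈ Ioc 0 N, ((om P i : ℝ) - mu) ^ 2 =
        (om P i : ℝ) ^ 2 - 2 * mu * (om P i : ℝ) + mu ^ 2 := by
      intro i _; ring
    rw [Finset.sum_congr rfl this, Finset.sum_add_distrib, Finset.sum_sub_distrib, Finset.sum_const,
      Nat.card_Ioc, nsmul_eq_mul, ← Finset.mul_sum]
    simp
  rw [h3]
  nlinarith

/-- few integers have less than `r` prime factors in `P` -/
theorem few (P : Finset ℕ) (hP : ∀ p ∈ P, p.Prime) (N r : ℕ) (mu : ℝ)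
    (hmu : mu = ∑ p ∈ P, 1 / (p : ℝ)) (hmu0 : 0 < mu) (hr : (r : ℝ) ≤ mu / 2) :
    ((((Ioc 0 N).filter (fun i => om P i < r)).card : ℕ) : ℝ) ≤ 4 * (N + 2 * P.card) / mu := by
  have h1 := second_moment P hP N mu hmu
  have h2 : ∑ i ∈ (Ioc 0 N).filter (fun i => om P i < r), (mu / 2) ^ 2 ≤
      ∑ i ∈ Ioc 0 N, ((om P i : ℝ) - mu) ^ 2 := by
    refine le_trans ?_ (Finset.sum_le_sum_of_subset_of_nonneg
      (Finset.filter_subset (fun i => om P i < r) (Ioc 0 N)) (fun i _ _ => sq_nonneg _))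
    apply Finset.sum_le_sum
    intro i hi
    have h3 := (Finset.mem_filter.1 hi).2
    have h4 : (om P i : ℝ) < r := by exact_mod_cast h3
    nlinarith
  rw [Finset.sum_const, nsmul_eq_mul] at h2
  rw [le_div_iff₀ hmu0]
  have h3 := h2.trans h1
  have h4 : (((((Ioc 0 N).filter (fun i => om P i < r)).card : ℕ) : ℝ) * mu) * mu ≤
      (4 * (N + 2 * P.card)) * mu := by nlinarith
  exact le_of_mul_le_mul_right h4 hmu0

open Classical in
/-- the integers up to `Y` divisible by `l` or by some `k l + 1` with `k ≤ B` -/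
noncomputable def badset (l Y B : ℕ) : Finset ℕ :=
  (Ioc 0 Y).filter (fun m : ℕ => l ∣ m ∨ ∃ k ∈ Ioc 0 B, (k * l + 1) ∣ m)

/-- rare divisors -/
lemma rare (l Y B : ℕ) (hl : 0 < l) :
    ((badset l Y B).card : ℝ) ≤ (Y : ℝ) / l * (2 + Real.log B) := by
  classical
  have hlr : (0 : ℝ) < l := by exact_mod_cast hl
  have h1 : badset l Y B ⊆
      (Ioc 0 Y).filter (fun m => l ∣ m) ∪
        (Ioc 0 B).biUnion (fun k => (Ioc 0 Y).filter (fun m => (k * l + 1) ∣ m)) := by
    intro m hm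
    unfold badset at hm
    rw [Finset.mem_filter] at hm
    rw [Finset.mem_union, Finset.mem_filter, Finset.mem_biUnion]
    rcases hm.2 with h | ⟨k, hk, h⟩
    · exact Or.inl ⟨hm.1, h⟩
    · exact Or.inr ⟨k, hk, Finset.mem_filter.2 ⟨hm.1, h⟩⟩
  have h2 := (Finset.card_le_card h1).trans (Finset.card_union_le _ _)
  have h3 : ((Ioc 0 B).biUnion (fun k => (Ioc 0 Y).filter (fun m => (k * l + 1) ∣ m))).card ≤
      ∑ k ∈ Ioc 0 B, Y / (k * l + 1) := by
    refine Finset.card_biUnion_le.trans (le_of_eq ?_)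
    apply Finset.sum_congr rfl
    intro k _
    rw [Nat.Ioc_filter_dvd_card_eq_div]
  rw [Nat.Ioc_filter_dvd_card_eq_div] at h2
  have h4 : ((badset l Y B).card : ℝ) ≤
      ((Y / l : ℕ) : ℝ) + ((∑ k ∈ Ioc 0 B, Y / (k * l + 1) : ℕ) : ℝ) := by
    exact_mod_cast h2.trans (Nat.add_le_add_left h3 _)
  refine h4.trans ?_
  have h5 : ((Y / l : ℕ) : ℝ) ≤ Y / l := Nat.cast_div_le
  have h6 : ((∑ k ∈ Ioc 0 B, Y / (k * l + 1) : ℕ) : ℝ) ≤ (Y : ℝ) / l * ∑ k ∈ Ioc 0 B, (1 : ℝ) / k := by
    rw [Nat.cast_sum, Finset.mul_sum]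
    apply Finset.sum_le_sum
    intro k hk
    rw [Finset.mem_Ioc] at hk
    have hk0 : (0 : ℝ) < k := by exact_mod_cast hk.1
    refine Nat.cast_div_le.trans ?_
    push_cast
    rw [div_mul_div_comm, mul_one]
    apply div_le_div_of_nonneg_left (Nat.cast_nonneg _) (by positivity)
    nlinarith
  have h7 : ∑ k ∈ Ioc 0 B, (1 : ℝ) / k ≤ 1 + Real.log B := by
    have h8 := harmonic_le_one_add_log B
    have h9 : ((harmonic B : ℚ) : ℝ) = ∑ k ∈ Ioc 0 B, (1 : ℝ) / k := by
      rw [harmonic_eq_sum_Icc]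
      push_cast
      apply Finset.sum_congr
      · ext k; simp [Nat.succ_le_iff]
      · intro k _; simp
    rw [← h9]; exact h8
  have h8 : (0 : ℝ) ≤ (Y : ℝ) / l := by positivity
  nlinarith

/-- exponent bound -/
lemma exponent (F : Finset ℕ) : ∀ m : ℕ, 0 < m → m.Coprime 2 →
    (∀ p ∈ F, p.Prime ∧ p ≠ 2 ∧ p ∣ m ∧ ¬ p ^ 2 ∣ m) →
    ∃ E : ℕ, 0 < E ∧ Even E ∧ m ∣ 2 ^ E - 1 ∧ E * 2 ^ F.card ≤ 2 * m := by
  classical
  induction F using Finset.induction_on with
  | empty =>
    intro m hm hodd _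
    refine ⟨2 * m.totient, by have := Nat.totient_pos.2 hm; omega, even_two_mul _, ?_, ?_⟩
    · have h1 := Nat.ModEq.pow_totient hodd.symm
      have h2 : 2 ^ (2 * m.totient) ≡ 1 [MOD m] := by
        rw [mul_comm, pow_mul]
        simpa using h1.pow 2
      exact (Nat.modEq_iff_dvd' Nat.one_le_two_pow).1 h2.symm
    · have := Nat.totient_le m
      simp; omega
  | insert p F hpF ih =>
    intro m hm hodd hF
    obtain ⟨hp, hp2, hpm, hpm2⟩ := hF p (Finset.mem_insert_self _ _)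
    obtain ⟨m', rfl⟩ := hpm
    have hm' : 0 < m' := Nat.pos_of_ne_zero (by rintro rfl; simp at hm)
    have hpm' : ¬ p ∣ m' := by
      intro h
      apply hpm2
      rw [sq]
      exact Nat.mul_dvd_mul_left p h
    have hodd' : m'.Coprime 2 := Nat.Coprime.coprime_mul_left hodd
    obtain ⟨E, hE0, hEe, hEm, hEle⟩ := ih m' hm' hodd' (by
      intro q hq
      obtain ⟨h1, h2, h3, h4⟩ := hF q (Finset.mem_insert_of_mem hq)
      have hqp : q ≠ p := fun h => hpF (h ▸ hq)
      refine ⟨h1, h2, ?_, ?_⟩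
      · exact ((Nat.coprime_primes h1 hp).2 hqp).dvd_of_dvd_mul_left h3
      · intro h
        exact h4 (h.trans (Dvd.intro_left p rfl)))
    have hp3 : 3 ≤ p := by
      have := hp.two_le
      omega
    obtain ⟨a, ha⟩ := hEe
    obtain ⟨b, hb⟩ : ∃ b, p - 1 = 2 * b := by
      have := hp.eq_two_or_odd
      rcases this with h | h
      · exact absurd h hp2
      · exact ⟨(p - 1) / 2, by omega⟩
    have hb0 : 0 < b := by omega
    have ha0 : 0 < a := by omega
    refine ⟨2 * (b * a), by positivity, even_two_mul _, ?_, ?_⟩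
    · have h1 : m' ∣ 2 ^ (2 * (b * a)) - 1 := by
        have : 2 * (b * a) = E * b := by rw [ha]; ring
        rw [this, pow_mul]
        have h2 := Nat.sub_dvd_pow_sub_pow (2 ^ E) 1 b
        rw [one_pow] at h2
        exact hEm.trans h2
      have h2 : p ∣ 2 ^ (2 * (b * a)) - 1 := by
        have h3 : (2 * (b * a)) = (p - 1) * a := by rw [hb]; ring
        rw [h3, pow_mul]
        have h4 := Nat.sub_dvd_pow_sub_pow (2 ^ (p - 1)) 1 a
        rw [one_pow] at h4
        refine Dvd.dvd.trans ?_ h4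
        have h5 : 2 ^ (p - 1) ≡ 1 [MOD p] := by
          have := Nat.ModEq.pow_totient (n := p) (x := 2)
            ((Nat.coprime_primes Nat.prime_two hp).2 (Ne.symm hp2))
          rwa [Nat.totient_prime hp] at this
        exact (Nat.modEq_iff_dvd' Nat.one_le_two_pow).1 h5.symm
      exact Nat.Coprime.mul_dvd_of_dvd_of_dvd ((Nat.Prime.coprime_iff_not_dvd hp).2 hpm') h2 h1
    · rw [Finset.card_insert_of_notMem hpF, pow_succ]
      have h1 : 2 * (b * a) * (2 ^ F.card * 2) = (p - 1) * (E * 2 ^ F.card) := by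
        rw [hb, ha]; ring
      rw [h1]
      calc (p - 1) * (E * 2 ^ F.card) ≤ (p - 1) * (2 * m') := Nat.mul_le_mul_left _ hEle
        _ ≤ p * (2 * m') := Nat.mul_le_mul_right _ (Nat.sub_le _ _)
        _ = 2 * (p * m') := by ring

/-- If `l` divides the order of `2` modulo an odd `m`, then `l ∣ m` or some `k l + 1` divides `m`. -/
lemma dvd_order (l m : ℕ) (hl : l.Prime) (hm : 0 < m) (hodd : m.Coprime 2)
    (h : l ∣ orderOf (2 : ZMod m)) : l ∣ m ∨ ∃ k, 0 < k ∧ k * l + 1 ≤ m ∧ (k * l + 1) ∣ m := by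
  have h1 : orderOf (2 : ZMod m) ∣ m.totient := by
    rw [orderOf_dvd_iff_pow_eq_one]
    have h2 := Nat.ModEq.pow_totient hodd.symm
    have h3 := (ZMod.natCast_eq_natCast_iff _ _ _).2 h2
    push_cast at h3
    exact h3
  have h2 := h.trans h1
  have h3 : l ∣ m * ∏ q ∈ m.primeFactors, (q - 1) := by
    rw [← Nat.totient_mul_prod_primeFactors]
    exact h2.trans (Dvd.intro _ rfl)
  rcases (hl.dvd_mul).1 h3 with h4 | h4
  · exact Or.inl h4
  · right
    obtain ⟨q, hq, hlq⟩ := (Prime.dvd_finsetProd_iff hl.prime _).1 h4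
    have hqp := Nat.prime_of_mem_primeFactors hq
    have hqm := Nat.dvd_of_mem_primeFactors hq
    obtain ⟨k, hk⟩ := hlq
    have h5 : q = k * l + 1 := by
      have := hqp.one_lt
      have h6 : q = (q - 1) + 1 := by omega
      rw [h6, hk]; ring
    refine ⟨k, ?_, ?_, ?_⟩
    · rcases Nat.eq_zero_or_pos k with h | h
      · exfalso
        rw [h, zero_mul, zero_add] at h5
        exact hqp.one_lt.ne' h5
      · exact h
    · rw [← h5]; exact Nat.le_of_dvd hm hqm
    · rw [← h5]; exact hqm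

end Pool.Agent.R518.RS
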