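import Mathlib
import Pool.Agent.Helper923.HMertens
import Pool.Agent.R518.RS.Count

/-! Most primes have the property that the order of `2` has a large prime factor. -/

set_option autoImplicit false

open Finset

namespace Pool.Agent.R518.RS

/-- the order of `2` modulo `p` has a prime factor larger than `L` -/
def Gd (L p : ℕ) : Prop := ∃ l : ℕ, l.Prime ∧ L < l ∧ l ∣ orderOf (2 : ZMod p)

lemma card_primeFactors_lt (t : ℕ) (ht : 0 < t) : (2 ^ t - 1).primeFactors.card ≤ t := by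
  have h2 : 1 < 2 ^ t := Nat.one_lt_two_pow (by omega)
  have h0 : 2 ^ t - 1 ≠ 0 := by omega
  have h1 : 2 ^ (2 ^ t - 1).primeFactors.card ≤ ∏ p ∈ (2 ^ t - 1).primeFactors, p := by
    apply Finset.pow_card_le_prod
    intro p hp
    exact (Nat.prime_of_mem_primeFactors hp).two_le
  have h3 : ∏ p ∈ (2 ^ t - 1).primeFactors, p ≤ 2 ^ t - 1 :=
    Nat.le_of_dvd (Nat.pos_of_ne_zero h0) (Nat.prod_primeFactors_dvd _)
  have h4 : 2 ^ (2 ^ t - 1).primeFactors.card < 2 ^ t := by omega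
  exact ((Nat.pow_lt_pow_iff_right (by norm_num)).1 h4).le

/-- the number of primes with a small order of `2` -/
lemma small_order (F : Finset ℕ) (D : ℕ)
    (hF : ∀ p ∈ F, p.Prime ∧ 0 < orderOf (2 : ZMod p) ∧ orderOf (2 : ZMod p) ≤ D) :
    F.card ≤ D * D := by
  classical
  have h1 : F ⊆ (Ioc 0 D).biUnion (fun t => (2 ^ t - 1).primeFactors) := by
    intro p hp
    obtain ⟨h1, h2, h3⟩ := hF p hp
    rw [Finset.mem_biUnion]
    refine ⟨orderOf (2 : ZMod p), Finset.mem_Ioc.2 ⟨h2, h3⟩, ?_⟩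
    rw [Nat.mem_primeFactors]
    have h4 : 1 < 2 ^ orderOf (2 : ZMod p) := Nat.one_lt_two_pow (by omega)
    refine ⟨h1, ?_, by omega⟩
    rw [← ZMod.natCast_eq_zero_iff, Nat.cast_sub (by omega)]
    push_cast
    rw [pow_orderOf_eq_one]
    simp
  refine (Finset.card_le_card h1).trans (Finset.card_biUnion_le.trans ?_)
  calc ∑ t ∈ Ioc 0 D, (2 ^ t - 1).primeFactors.card ≤ ∑ t ∈ Ioc 0 D, D := by
        apply Finset.sum_le_sum
        intro t ht
        rw [Finset.mem_Ioc] at ht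
        exact (card_primeFactors_lt t ht.1).trans ht.2
    _ = D * D := by simp

/-- `n ↦ 1/√n` -/
noncomputable def fs : ℕ →* ℝ where
  toFun n := (Real.sqrt n)⁻¹
  map_one' := by simp
  map_mul' a b := by
    push_cast
    rw [Real.sqrt_mul (Nat.cast_nonneg _), mul_inv]

lemma fs_apply (n : ℕ) : fs n = (Real.sqrt n)⁻¹ := rfl

lemma fs_nonneg (n : ℕ) : 0 ≤ fs n := by rw [fs_apply]; positivity

lemma sum_inv_sqrt (n : ℕ) : ∑ k ∈ Ioc 0 n, (Real.sqrt k)⁻¹ ≤ 2 * Real.sqrt n := by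
  induction n with
  | zero => simp
  | succ n ih =>
    have h1 : Ioc 0 (n + 1) = insert (n + 1) (Ioc 0 n) := by
      ext k; simp only [Finset.mem_Ioc, Finset.mem_insert]; omega
    rw [h1, Finset.sum_insert (by simp)]
    have h2 : (Real.sqrt ((n + 1 : ℕ) : ℝ))⁻¹ ≤ 2 * (Real.sqrt ((n + 1 : ℕ) : ℝ) - Real.sqrt n) := by
      set a := Real.sqrt ((n + 1 : ℕ) : ℝ) with ha
      set b := Real.sqrt (n : ℝ) with hb
      have ha0 : 0 < a := Real.sqrt_pos.2 (by positivity)
      have hb0 : 0 ≤ b := Real.sqrt_nonneg _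
      have ha2 : a ^ 2 = n + 1 := by rw [ha, Real.sq_sqrt (by positivity)]; push_cast; ring
      have hb2 : b ^ 2 = n := by rw [hb, Real.sq_sqrt (by positivity)]
      rw [inv_le_iff_one_le_mul₀ ha0]
      nlinarith [sq_nonneg (a - b)]
    linarith

lemma sum_smooth (L : ℕ) (T : Finset ℕ) (hT : ∀ d ∈ T, d ∈ Nat.smoothNumbers (L + 1)) :
    ∑ d ∈ T, fs d ≤ Real.exp (8 * Real.sqrt L) := by
  classical
  have hlt : ∀ {p : ℕ}, p.Prime → ‖fs p‖ < 1 := by
    intro p hp
    rw [fs_apply, Real.norm_of_nonneg (by positivity)]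
    have h1 : (1 : ℝ) < Real.sqrt p := by
      rw [Real.lt_sqrt (by norm_num)]
      have : (1 : ℝ) < p := by exact_mod_cast hp.one_lt
      simpa using this
    exact inv_lt_one_of_one_lt₀ h1
  have h1 := (EulerProduct.summable_and_hasSum_smoothNumbers_prod_primesBelow_geometric hlt (L + 1)).2
  have h2 : HasSum (Set.indicator (Nat.smoothNumbers (L + 1)) (fun n => fs n))
      (∏ p ∈ (L + 1).primesBelow, (1 - fs p)⁻¹) := by
    rw [← hasSum_subtype_iff_indicator]
    exact h1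
  have h3 : ∑ d ∈ T, fs d ≤ ∏ p ∈ (L + 1).primesBelow, (1 - fs p)⁻¹ := by
    have h4 := sum_le_hasSum T (fun i _ => Set.indicator_nonneg (fun n _ => fs_nonneg n) i) h2
    refine le_trans (le_of_eq ?_) h4
    apply Finset.sum_congr rfl
    intro d hd
    rw [Set.indicator_of_mem (hT d hd)]
  refine h3.trans ?_
  have h4 : ∏ p ∈ (L + 1).primesBelow, (1 - fs p)⁻¹ ≤
      ∏ p ∈ (L + 1).primesBelow, Real.exp (4 * fs p) := by
    apply Finset.prod_le_prod
    · intro p hp
      have := hlt (Nat.prime_of_mem_primesBelow hp)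
      rw [Real.norm_of_nonneg (fs_nonneg p)] at this
      have : 0 < 1 - fs p := by linarith
      positivity
    · intro p hp
      have hpp := Nat.prime_of_mem_primesBelow hp
      have h5 : fs p ≤ 3 / 4 := by
        rw [fs_apply]
        have h6 : (4 / 3 : ℝ) ≤ Real.sqrt p := by
          apply Real.le_sqrt_of_sq_le
          have : (2 : ℝ) ≤ p := by exact_mod_cast hpp.two_le
          nlinarith
        calc (Real.sqrt p)⁻¹ ≤ (4 / 3 : ℝ)⁻¹ := inv_anti₀ (by norm_num) h6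
          _ = 3 / 4 := by norm_num
      have h6 : 0 ≤ fs p := fs_nonneg p
      have h7 : 4 * fs p + 1 ≤ Real.exp (4 * fs p) := Real.add_one_le_exp _
      refine le_trans ?_ h7
      rw [inv_le_iff_one_le_mul₀ (by linarith)]
      nlinarith
  refine h4.trans ?_
  rw [← Real.exp_sum]
  apply Real.exp_le_exp.2
  have h5 : ∑ p ∈ (L + 1).primesBelow, 4 * fs p ≤ ∑ k ∈ Ioc 0 L, 4 * fs k := by
    apply Finset.sum_le_sum_of_subset_of_nonneg
    · intro p hp
      have h6 := Nat.lt_of_mem_primesBelow hp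
      have h7 := (Nat.prime_of_mem_primesBelow hp).pos
      rw [Finset.mem_Ioc]
      omega
    · intro k _ _
      have := fs_nonneg k
      positivity
  refine h5.trans ?_
  rw [← Finset.mul_sum]
  have h6 := sum_inv_sqrt L
  simp_rw [fs_apply]
  linarith

/-- primes whose order of `2` is large and smooth -/
lemma smooth_order (F : Finset ℕ) (L D Z : ℕ) (hD : 0 < D) (hZ : 0 < Z)
    (hF : ∀ p ∈ F, p.Prime ∧ p ≠ 2 ∧ p ≤ Z ∧ D < orderOf (2 : ZMod p) ∧ ¬ Gd L p) :
    ∑ p ∈ F, 1 / (p : ℝ) ≤ (Real.sqrt D)⁻¹ * (Real.exp (8 * Real.sqrt L) * (1 + Real.log Z)) := by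
  classical
  have hdvd : ∀ p ∈ F, orderOf (2 : ZMod p) ∣ p - 1 := by
    intro p hp
    obtain ⟨h1, h2, -⟩ := hF p hp
    haveI : Fact p.Prime := ⟨h1⟩
    apply ZMod.orderOf_dvd_card_sub_one
    intro h
    have h3 : ((2 : ℕ) : ZMod p) = 0 := by exact_mod_cast h
    rw [ZMod.natCast_eq_zero_iff] at h3
    exact h2 ((Nat.prime_dvd_prime_iff_eq h1 Nat.prime_two).1 h3)
  set g : ℕ → ℕ × ℕ := fun p => (orderOf (2 : ZMod p), (p - 1) / orderOf (2 : ZMod p)) with hg
  have hpg : ∀ p ∈ F, p = (g p).1 * (g p).2 + 1 := by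
    intro p hp
    have h1 := Nat.mul_div_cancel' (hdvd p hp)
    have h2 := (hF p hp).1.one_lt
    simp only [hg]
    omega
  have hk : ∀ p ∈ F, 0 < (g p).2 := by
    intro p hp
    rcases Nat.eq_zero_or_pos (g p).2 with h | h
    · exfalso
      have h1 := hpg p hp
      rw [h, mul_zero, zero_add] at h1
      exact (hF p hp).1.one_lt.ne' h1
    · exact h
  set T := F.image (fun p => (g p).1) with hT
  have hsub : F.image g ⊆ T ×ˢ Ioc 0 Z := by
    intro x hx
    rw [Finset.mem_image] at hx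
    obtain ⟨p, hp, rfl⟩ := hx
    rw [Finset.mem_product, Finset.mem_Ioc]
    refine ⟨Finset.mem_image_of_mem _ hp, hk p hp, ?_⟩
    refine le_trans ?_ (hF p hp).2.2.1
    exact (Nat.div_le_self _ _).trans (Nat.sub_le _ _)
  have hterm : ∀ p ∈ F, 1 / (p : ℝ) ≤ (Real.sqrt D)⁻¹ * (fs (g p).1 * (1 / ((g p).2 : ℝ))) := by
    intro p hp
    have h1 := hpg p hp
    have h2 := hk p hp
    have h3 : D < (g p).1 := (hF p hp).2.2.2.1
    set d := (g p).1
    set k := (g p).2
    have hd0 : (0 : ℝ) < d := by exact_mod_cast (by omega : 0 < d)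
    have hk0 : (0 : ℝ) < k := by exact_mod_cast h2
    have hpr : (p : ℝ) = d * k + 1 := by exact_mod_cast h1
    rw [hpr, fs_apply]
    have h4 : (1 : ℝ) / (d * k + 1) ≤ 1 / (d * k) :=
      div_le_div_of_nonneg_left (by norm_num) (by positivity) (by linarith)
    refine h4.trans ?_
    have h5 : (Real.sqrt D) ≤ Real.sqrt d := Real.sqrt_le_sqrt (by exact_mod_cast h3.le)
    have h6 : 0 < Real.sqrt D := Real.sqrt_pos.2 (by exact_mod_cast hD)
    have h7 : (1 : ℝ) / (d * k) = (Real.sqrt d)⁻¹ * ((Real.sqrt d)⁻¹ * (1 / k)) := by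
      have h8 : Real.sqrt d * Real.sqrt d = d := Real.mul_self_sqrt hd0.le
      have h9 : 0 < Real.sqrt d := Real.sqrt_pos.2 hd0
      rw [← mul_assoc, ← mul_inv, h8]
      field_simp
    rw [h7]
    apply mul_le_mul_of_nonneg_right _ (by positivity)
    exact inv_anti₀ h6 h5
  have hinj : Set.InjOn g (F : Set ℕ) := by
    intro p hp q hq h
    rw [hpg p hp, hpg q hq, h]
  have hTs : ∀ d ∈ T, d ∈ Nat.smoothNumbers (L + 1) := by
    intro d hd
    rw [hT, Finset.mem_image] at hd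
    obtain ⟨p, hp, rfl⟩ := hd
    rw [Nat.mem_smoothNumbers']
    intro q hq hqd
    by_contra hcon
    push Not at hcon
    exact (hF p hp).2.2.2.2 ⟨q, hq, by omega, hqd⟩
  calc ∑ p ∈ F, 1 / (p : ℝ) ≤ ∑ p ∈ F, (Real.sqrt D)⁻¹ * (fs (g p).1 * (1 / ((g p).2 : ℝ))) :=
        Finset.sum_le_sum hterm
    _ = (Real.sqrt D)⁻¹ * ∑ x ∈ F.image g, fs x.1 * (1 / (x.2 : ℝ)) := by
        rw [← Finset.mul_sum, Finset.sum_image hinj]
    _ ≤ (Real.sqrt D)⁻¹ * ∑ x ∈ T ×ˢ Ioc 0 Z, fs x.1 * (1 / (x.2 : ℝ)) := by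
        apply mul_le_mul_of_nonneg_left _ (by positivity)
        apply Finset.sum_le_sum_of_subset_of_nonneg hsub
        intro x _ _
        have := fs_nonneg x.1
        positivity
    _ = (Real.sqrt D)⁻¹ * ((∑ d ∈ T, fs d) * ∑ k ∈ Ioc 0 Z, 1 / (k : ℝ)) := by
        rw [Finset.sum_product, Finset.sum_mul_sum]
    _ ≤ _ := by
        apply mul_le_mul_of_nonneg_left _ (by positivity)
        apply mul_le_mul (sum_smooth L T hTs) _ (by positivity) (by positivity)
        have h8 := harmonic_le_one_add_log Z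
        have h9 : ((harmonic Z : ℚ) : ℝ) = ∑ k ∈ Ioc 0 Z, (1 : ℝ) / k := by
          rw [harmonic_eq_sum_Icc]
          push_cast
          apply Finset.sum_congr
          · ext k; simp [Nat.succ_le_iff]
          · intro k _; simp
        rw [← h9]; exact h8

end Pool.Agent.R518.RS
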