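import Mathlib
import Pool.Agent.R518.RS.Good

/-! The sum of the reciprocals of the good primes. -/

set_option autoImplicit false

open Finset Filter

namespace Pool.Agent.R518.RS

open Classical in
/-- the good primes -/
noncomputable def PS (A s : ℕ) : Finset ℕ :=
  (Ioc (2 ^ (6 * s ^ 4)) (2 ^ (6 * A * s ^ 4))).filter (fun p => p.Prime ∧ Gd (s ^ 6) p)

lemma mem_PS (A s p : ℕ) : p ∈ PS A s ↔ (2 ^ (6 * s ^ 4) < p ∧ p ≤ 2 ^ (6 * A * s ^ 4)) ∧
    p.Prime ∧ Gd (s ^ 6) p := by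
  classical
  unfold PS
  simp only [Finset.mem_filter, Finset.mem_Ioc]

lemma order_pos (p : ℕ) (hp : p.Prime) (h2 : p ≠ 2) : 0 < orderOf (2 : ZMod p) := by
  haveI : Fact p.Prime := ⟨hp⟩
  have h : (2 : ZMod p) ≠ 0 := by
    intro h
    have h3 : ((2 : ℕ) : ZMod p) = 0 := by exact_mod_cast h
    rw [ZMod.natCast_eq_zero_iff] at h3
    exact h2 ((Nat.prime_dvd_prime_iff_eq hp Nat.prime_two).1 h3)
  have h1 := ZMod.pow_card_sub_one_eq_one h
  exact orderOf_pos_iff.2 (isOfFinOrder_iff_pow_eq_one.2 ⟨p - 1, by have := hp.two_le; omega, h1⟩)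

lemma log_ratio (A s : ℕ) (hs : 1 ≤ s) :
    Real.log (Real.log ((2 ^ (6 * A * s ^ 4) : ℕ) : ℝ) / Real.log ((2 ^ (6 * s ^ 4) : ℕ) : ℝ)) =
      Real.log A := by
  congr 1
  push_cast
  rw [Real.log_pow, Real.log_pow]
  have h1 : Real.log 2 ≠ 0 := by have := Real.log_pos (by norm_num : (1 : ℝ) < 2); exact this.ne'
  have h2 : (s : ℝ) ≠ 0 := by positivity
  push_cast
  field_simp

theorem sum_PS (A : ℕ) (hA : 1 ≤ A) : ∀ᶠ s : ℕ in atTop,
    Real.log A - 1 ≤ ∑ p ∈ PS A s, 1 / (p : ℝ) ∧ ∑ p ∈ PS A s, 1 / (p : ℝ) ≤ Real.log A + 1 := by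
  classical
  obtain ⟨C, hC0, hC⟩ := Pool.Agent.Helper923.HMertens.mertens_ratio
  filter_upwards [eventually_ge_atTop (100 + 60 * A + ⌈C⌉₊)] with s hs
  have hs100 : 100 ≤ s := by omega
  have hsA : 60 * A ≤ s := by omega
  have hsC : C ≤ s := by
    have h1 : C ≤ (⌈C⌉₊ : ℝ) := Nat.le_ceil C
    have h2 : ((⌈C⌉₊ : ℕ) : ℝ) ≤ s := by exact_mod_cast (by omega : ⌈C⌉₊ ≤ s)
    linarith
  have hsr : (100 : ℝ) ≤ s := by exact_mod_cast hs100
  have hlog2 : (0.69 : ℝ) ≤ Real.log 2 := by have := Real.log_two_gt_d9; linarith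
  have hlog2' : Real.log 2 ≤ 1 := by have := Real.log_two_lt_d9; linarith
  set y := 2 ^ (6 * s ^ 4) with hy
  set Z := 2 ^ (6 * A * s ^ 4) with hZ
  set D := 2 ^ (2 * s ^ 4) with hD
  have hs4 : 0 < s ^ 4 := by positivity
  have hyZ : y ≤ Z := by
    rw [hy, hZ]
    apply Nat.pow_le_pow_right (by norm_num)
    nlinarith
  have hy2 : 2 ≤ y := by
    rw [hy]
    calc 2 = 2 ^ 1 := by norm_num
      _ ≤ 2 ^ (6 * s ^ 4) := Nat.pow_le_pow_right (by norm_num) (by omega)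
  have hlogy : (s : ℝ) * 4 ≤ Real.log y := by
    rw [hy]
    push_cast
    rw [Real.log_pow]
    push_cast
    have h1 : (s : ℝ) ≤ (s : ℝ) ^ 4 := le_self_pow₀ (by linarith) (by norm_num)
    nlinarith
  have hmer := hC y Z hy2 hyZ
  rw [hy, hZ, log_ratio A s (by omega), ← hy, ← hZ] at hmer
  have hCy : C / Real.log y ≤ 1 / 4 := by
    rw [div_le_iff₀ (by linarith)]
    linarith
  have hmer2 := abs_le.1 (hmer.trans hCy)
  constructor
  · -- lower bound
    set Pr := (Ioc y Z).filter Nat.Prime with hPr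
    set F1 := Pr.filter (fun p => orderOf (2 : ZMod p) ≤ D) with hF1
    set F2 := Pr.filter (fun p => D < orderOf (2 : ZMod p) ∧ ¬ Gd (s ^ 6) p) with hF2
    have hcover : Pr ⊆ PS A s ∪ (F1 ∪ F2) := by
      intro p hp
      have hp' := hp
      rw [hPr, Finset.mem_filter, Finset.mem_Ioc] at hp'
      rw [Finset.mem_union, Finset.mem_union]
      by_cases h1 : orderOf (2 : ZMod p) ≤ D
      · exact Or.inr (Or.inl (Finset.mem_filter.2 ⟨hp, h1⟩))
      · push Not at h1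
        by_cases h2 : Gd (s ^ 6) p
        · exact Or.inl ((mem_PS A s p).2 ⟨hp'.1, hp'.2, h2⟩)
        · exact Or.inr (Or.inr (Finset.mem_filter.2 ⟨hp, h1, h2⟩))
    have hsum : ∑ p ∈ Pr, 1 / (p : ℝ) ≤ ∑ p ∈ PS A s, 1 / (p : ℝ) + (∑ p ∈ F1, 1 / (p : ℝ) +
        ∑ p ∈ F2, 1 / (p : ℝ)) := by
      refine (Finset.sum_le_sum_of_subset_of_nonneg hcover (fun p _ _ => by positivity)).trans ?_
      have h1 : ∀ (U V : Finset ℕ), ∑ p ∈ U ∪ V, 1 / (p : ℝ) ≤
          ∑ p ∈ U, 1 / (p : ℝ) + ∑ p ∈ V, 1 / (p : ℝ) := by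
        intro U V
        have h2 := Finset.sum_union_inter (s₁ := U) (s₂ := V) (f := fun p : ℕ => 1 / (p : ℝ))
        have h3 : 0 ≤ ∑ p ∈ U ∩ V, 1 / (p : ℝ) := Finset.sum_nonneg (fun p _ => by positivity)
        linarith
      refine (h1 _ _).trans ?_
      have := h1 F1 F2
      linarith
    have hne2 : ∀ p ∈ Pr, p ≠ 2 := by
      intro p hp
      rw [hPr, Finset.mem_filter, Finset.mem_Ioc] at hp
      omega
    have hF1card : F1.card ≤ D * D := by
      apply small_order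
      intro p hp
      rw [hF1, Finset.mem_filter] at hp
      have hpp : p.Prime := (Finset.mem_filter.1 hp.1).2
      exact ⟨hpp, order_pos p hpp (hne2 p hp.1), hp.2⟩
    have hF1sum : ∑ p ∈ F1, 1 / (p : ℝ) ≤ 1 / 4 := by
      have h1 : ∑ p ∈ F1, 1 / (p : ℝ) ≤ ∑ p ∈ F1, 1 / (y : ℝ) := by
        apply Finset.sum_le_sum
        intro p hp
        rw [hF1, Finset.mem_filter, hPr, Finset.mem_filter, Finset.mem_Ioc] at hp
        apply div_le_div_of_nonneg_left (by norm_num) (by positivity)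
        exact_mod_cast hp.1.1.1.le
      refine h1.trans ?_
      rw [Finset.sum_const, nsmul_eq_mul, mul_one_div, div_le_iff₀ (by positivity)]
      have h2 : 4 * (D * D) ≤ y := by
        rw [hD, hy, ← pow_add]
        calc 4 * 2 ^ (2 * s ^ 4 + 2 * s ^ 4) = 2 ^ (2 * s ^ 4 + 2 * s ^ 4 + 2) := by ring
          _ ≤ 2 ^ (6 * s ^ 4) := Nat.pow_le_pow_right (by norm_num) (by omega)
      have h3 : (4 : ℝ) * F1.card ≤ y := by exact_mod_cast (Nat.mul_le_mul_left 4 hF1card).trans h2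
      linarith
    have hF2sum : ∑ p ∈ F2, 1 / (p : ℝ) ≤ 1 / 4 := by
      have h1 := smooth_order F2 (s ^ 6) D Z (by positivity) (by positivity) (by
        intro p hp
        have hp' := hp
        rw [hF2, Finset.mem_filter] at hp'
        have hp2 := hp'.1
        rw [hPr, Finset.mem_filter, Finset.mem_Ioc] at hp2
        exact ⟨hp2.2, hne2 p hp'.1, hp2.1.2, hp'.2.1, hp'.2.2⟩)
      refine h1.trans ?_
      have h2 : Real.sqrt ((s ^ 6 : ℕ) : ℝ) = (s : ℝ) ^ 3 := by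
        rw [Real.sqrt_eq_iff_mul_self_eq (by positivity) (by positivity)]
        push_cast; ring
      have h3 : Real.sqrt (D : ℝ) = Real.exp (Real.log 2 * (s : ℝ) ^ 4) := by
        rw [Real.sqrt_eq_iff_mul_self_eq (by positivity) (Real.exp_pos _).le, ← Real.exp_add]
        rw [hD]
        push_cast
        rw [← Real.exp_log (by positivity : (0 : ℝ) < 2 ^ (2 * s ^ 4)), Real.log_pow]
        congr 1
        push_cast
        ring
      have h4 : Real.log Z ≤ 6 * A * (s : ℝ) ^ 4 := by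
        rw [hZ]
        push_cast
        rw [Real.log_pow]
        push_cast
        have : (0 : ℝ) ≤ 6 * A * (s : ℝ) ^ 4 := by positivity
        nlinarith
      rw [h2, h3, ← Real.exp_neg, ← mul_assoc, ← Real.exp_add]
      have h5 : -(Real.log 2 * (s : ℝ) ^ 4) + 8 * (s : ℝ) ^ 3 ≤ -(s : ℝ) ^ 3 := by
        have h6 : (0 : ℝ) < (s : ℝ) ^ 3 := by positivity
        have h7 : (s : ℝ) ^ 4 = s * (s : ℝ) ^ 3 := by ring
        rw [h7]
        have h8 : 9 ≤ Real.log 2 * s := by nlinarith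
        nlinarith
      have h6 : Real.exp (-(Real.log 2 * (s : ℝ) ^ 4) + 8 * (s : ℝ) ^ 3) ≤
          Real.exp (-(s : ℝ) ^ 3) := Real.exp_le_exp.2 h5
      have h7 : (s : ℝ) ^ 6 / 2 ≤ Real.exp ((s : ℝ) ^ 3) := by
        have := Real.quadratic_le_exp_of_nonneg (x := (s : ℝ) ^ 3) (by positivity)
        nlinarith [pow_pos (by linarith : (0 : ℝ) < s) 3]
      have h8 : Real.exp (-(s : ℝ) ^ 3) ≤ 2 / (s : ℝ) ^ 6 := by
        rw [Real.exp_neg, inv_le_comm₀ (Real.exp_pos _) (by positivity)]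
        refine le_trans (le_of_eq ?_) h7
        rw [inv_div]
      have hAr : (1 : ℝ) ≤ A := by exact_mod_cast hA
      have h9 : 1 + Real.log Z ≤ 7 * A * (s : ℝ) ^ 4 := by
        have : (1 : ℝ) ≤ (s : ℝ) ^ 4 := one_le_pow₀ (by linarith)
        nlinarith
      have h10 : 0 ≤ 1 + Real.log Z := by
        have : 0 ≤ Real.log Z := Real.log_natCast_nonneg Z
        linarith
      calc Real.exp (-(Real.log 2 * (s : ℝ) ^ 4) + 8 * (s : ℝ) ^ 3) * (1 + Real.log Z)
          ≤ (2 / (s : ℝ) ^ 6) * (7 * A * (s : ℝ) ^ 4) :=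
            mul_le_mul (h6.trans h8) h9 h10 (by positivity)
        _ = 14 * A / (s : ℝ) ^ 2 := by field_simp; ring
        _ ≤ 1 / 4 := by
            rw [div_le_iff₀ (by positivity)]
            have : (60 : ℝ) * A ≤ s := by exact_mod_cast hsA
            nlinarith
    have : ∑ p ∈ Pr, (1 : ℝ) / p - Real.log A ≥ -(1 / 4) := hmer2.1
    linarith
  · have h1 : ∑ p ∈ PS A s, 1 / (p : ℝ) ≤ ∑ p ∈ (Ioc y Z).filter Nat.Prime, 1 / (p : ℝ) := by
      apply Finset.sum_le_sum_of_subset_of_nonneg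
      · intro p hp
        rw [mem_PS] at hp
        rw [Finset.mem_filter, Finset.mem_Ioc]
        exact ⟨hp.1, hp.2.1⟩
      · intro p _ _; positivity
    have := hmer2.2
    linarith

end Pool.Agent.R518.RS
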