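import Mathlib

/-! A trigonometric polynomial below the fractional part function with mean at least `0.48`. -/

set_option autoImplicit false

open Finset

namespace Pool.Agent.R518.RS

/-- `e(x) = exp(2 pi i x)` -/
noncomputable def e (x : ℝ) : ℂ := Complex.exp (2 * Real.pi * Complex.I * x)

lemma e_add (x y : ℝ) : e (x + y) = e x * e y := by
  unfold e
  rw [← Complex.exp_add]
  congr 1
  push_cast
  ring

lemma e_int (n : ℤ) : e n = 1 := by
  unfold e
  rw [Complex.exp_eq_one_iff]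
  exact ⟨n, by push_cast; ring⟩

lemma e_add_int (x : ℝ) (n : ℤ) : e (x + n) = e x := by rw [e_add, e_int, mul_one]

lemma norm_e (x : ℝ) : ‖e x‖ = 1 := by
  unfold e
  rw [Complex.norm_exp]
  simp

lemma e_nat_mul (x : ℝ) (n : ℕ) : e (n * x) = e x ^ n := by
  unfold e
  rw [← Complex.exp_nat_mul]
  congr 1
  push_cast
  ring

lemma pow_succ_ge (a : ℝ) (ha : 0 ≤ a) (n : ℕ) :
    a ^ (n + 1) + (n + 1) * a ^ n ≤ (a + 1) ^ (n + 1) := by
  induction n with
  | zero => simp
  | succ n ih =>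
    have h1 : (a + 1) ^ (n + 1 + 1) = (a + 1) * (a + 1) ^ (n + 1) := by ring
    have h2 : (a + 1) * (a ^ (n + 1) + (n + 1) * a ^ n) ≤ (a + 1) * (a + 1) ^ (n + 1) :=
      mul_le_mul_of_nonneg_left ih (by linarith)
    have h3 : 0 ≤ ((n : ℝ) + 1) * a ^ n := by positivity
    rw [h1]
    refine le_trans ?_ h2
    push_cast
    have h4 : (a + 1) * (a ^ (n + 1) + (n + 1) * a ^ n) =
      a ^ (n + 1 + 1) + (n + 1 + 1) * a ^ (n + 1) + (n + 1) * a ^ n := by ring
    rw [h4]
    linarith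

lemma sum_pow_le (n Q : ℕ) : ∑ a ∈ range Q, (a : ℝ) ^ n ≤ (Q : ℝ) ^ (n + 1) / (n + 1) := by
  induction Q with
  | zero => simp
  | succ Q ih =>
    rw [Finset.sum_range_succ]
    have h := pow_succ_ge (Q : ℝ) (Nat.cast_nonneg _) n
    have hn : (0 : ℝ) < n + 1 := by positivity
    rw [le_div_iff₀ hn] at ih ⊢
    push_cast
    nlinarith

lemma sum_e (Q : ℕ) (hQ : 0 < Q) (k : ℤ) (hk : ¬ ((Q : ℤ) ∣ k)) :
    ∑ a ∈ range Q, e (k * ((a : ℝ) / Q)) = 0 := by
  set z := e ((k : ℝ) / Q) with hz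
  have hQ' : (Q : ℝ) ≠ 0 := by positivity
  have h1 : ∀ a : ℕ, e (k * ((a : ℝ) / Q)) = z ^ a := by
    intro a
    rw [hz, ← e_nat_mul]
    congr 1
    ring
  have hzQ : z ^ Q = 1 := by
    rw [hz, ← e_nat_mul]
    have : (Q : ℝ) * ((k : ℝ) / Q) = (k : ℝ) := by field_simp
    rw [this, e_int]
  have hz1 : z ≠ 1 := by
    intro h
    rw [hz] at h
    unfold e at h
    rw [Complex.exp_eq_one_iff] at h
    obtain ⟨n, hn⟩ := h
    apply hk
    have hpi : (2 * (Real.pi : ℂ) * Complex.I) ≠ 0 := by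
      simp [Real.pi_ne_zero]
    have h2 : (((k : ℝ) / Q : ℝ) : ℂ) = (n : ℂ) := by
      apply mul_left_cancel₀ hpi
      rw [hn]; ring
    have h3 : ((k : ℝ) / Q : ℝ) = (n : ℝ) := by exact_mod_cast h2
    have h4 : (k : ℝ) = Q * n := by
      rw [div_eq_iff hQ'] at h3
      rw [h3]; ring
    exact ⟨n, by exact_mod_cast h4⟩
  simp_rw [h1]
  have := geom_sum_mul z Q
  rw [hzQ, sub_self] at this
  rcases mul_eq_zero.1 this with h | h
  · exact h
  · exact absurd (sub_eq_zero.1 h) hz1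

/-- the auxiliary function on the circle -/
noncomputable def hc : AddCircle (1 : ℝ) → ℝ := AddCircle.liftIco 1 0 (fun x => x - x ^ 100)

lemma hc_cont : Continuous hc := by
  unfold hc
  apply AddCircle.liftIco_zero_continuous
  · norm_num
  · fun_prop

lemma hc_apply (x : ℝ) : hc (x : AddCircle (1 : ℝ)) = Int.fract x - Int.fract x ^ 100 := by
  have h1 : (x : AddCircle (1 : ℝ)) = ((Int.fract x : ℝ) : AddCircle (1 : ℝ)) := by
    rw [← sub_eq_zero, ← AddCircle.coe_sub, AddCircle.coe_eq_zero_iff]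
    exact ⟨⌊x⌋, by rw [zsmul_eq_mul, mul_one, Int.self_sub_fract]⟩
  rw [h1]
  unfold hc
  rw [AddCircle.liftIco_zero_coe_apply ⟨Int.fract_nonneg x, Int.fract_lt_one x⟩]


lemma fourier_e (k : ℤ) (x : ℝ) : fourier (T := (1 : ℝ)) k (x : AddCircle (1 : ℝ)) = e (k * x) := by
  rw [fourier_coe_apply]
  unfold e
  congr 1
  push_cast
  ring

/-- There is a trigonometric polynomial below the fractional part with mean at least `0.48`. -/
theorem minorant : ∃ (S : Finset ℤ) (c : ℤ → ℂ), 0 ∈ S ∧ 0.48 ≤ (c 0).re ∧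
    ∀ x : ℝ, (∑ k ∈ S, c k * e (k * x)).re ≤ Int.fract x := by
  set H : C(AddCircle (1 : ℝ), ℂ) := ⟨fun x => (hc x : ℂ), by
    exact Complex.continuous_ofReal.comp hc_cont⟩ with hH
  have hmem : H ∈ closure ((Submodule.span ℂ (Set.range (fourier (T := (1 : ℝ)))) :
      Submodule ℂ C(AddCircle (1 : ℝ), ℂ)) : Set C(AddCircle (1 : ℝ), ℂ)) := by
    have h1 := span_fourier_closure_eq_top (T := (1 : ℝ))
    rw [← Submodule.topologicalClosure_coe, h1]
    trivial
  obtain ⟨g, hg, hdist⟩ := Metric.mem_closure_iff.1 hmem 0.001 (by norm_num)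
  have hg' : g ∈ Submodule.span ℂ (Set.range (fourier (T := (1 : ℝ)))) := hg
  rw [Finsupp.mem_span_range_iff_exists_finsupp] at hg'
  obtain ⟨c, hc'⟩ := hg'
  have hgx : ∀ x : ℝ, g (x : AddCircle (1 : ℝ)) = ∑ k ∈ insert 0 c.support, c k * e (k * x) := by
    intro x
    rw [← hc', Finsupp.sum, ContinuousMap.coe_sum, Finset.sum_apply]
    rw [Finset.sum_subset (Finset.subset_insert 0 c.support)]
    · apply Finset.sum_congr rfl
      intro k _
      rw [ContinuousMap.coe_smul, Pi.smul_apply, smul_eq_mul, fourier_e]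
    · intro k _ hk
      rw [Finsupp.notMem_support_iff] at hk
      rw [ContinuousMap.coe_smul, Pi.smul_apply, hk, zero_smul]
  have hclose : ∀ x : ℝ, |(g (x : AddCircle (1 : ℝ))).re - (Int.fract x - Int.fract x ^ 100)| ≤ 0.001 := by
    intro x
    have h1 : ‖H (x : AddCircle (1 : ℝ)) - g (x : AddCircle (1 : ℝ))‖ ≤ 0.001 := by
      have := ContinuousMap.dist_apply_le_dist (f := H) (g := g) (x : AddCircle (1 : ℝ))
      rw [dist_eq_norm] at this
      linarith
    have h2 := (Complex.abs_re_le_norm _).trans h1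
    rw [Complex.sub_re, hH] at h2
    simp only [ContinuousMap.coe_mk, Complex.ofReal_re] at h2
    rw [hc_apply, abs_sub_comm] at h2
    exact h2
  set S := insert 0 c.support with hS
  -- lower bound for the constant coefficient
  have hc0 : 0.485 ≤ (c 0).re := by
    obtain ⟨Q, hQ1000, hQ⟩ : ∃ Q : ℕ, 1000 ≤ Q ∧ ∀ k ∈ S, k ≠ 0 → ¬ ((Q : ℤ) ∣ k) := by
      refine ⟨1000 + ∑ k ∈ S, k.natAbs, by omega, ?_⟩
      intro k hk hk0 hdvd
      have h1 : k.natAbs ≤ ∑ k ∈ S, k.natAbs := Finset.single_le_sum (f := fun k : ℤ => k.natAbs)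
        (fun _ _ => Nat.zero_le _) hk
      have h2 := Int.natAbs_dvd_natAbs.2 hdvd
      rw [Int.natAbs_natCast] at h2
      have h3 := Nat.le_of_dvd (Int.natAbs_pos.2 hk0) h2
      omega
    have hQ0 : 0 < Q := by omega
    have hQr : (0 : ℝ) < Q := by exact_mod_cast hQ0
    have hsum : ∑ a ∈ range Q, g (((a : ℝ) / Q : ℝ) : AddCircle (1 : ℝ)) = Q * c 0 := by
      simp_rw [hgx]
      rw [Finset.sum_comm]
      rw [Finset.sum_eq_single_of_mem 0 (Finset.mem_insert_self _ _)]
      · simp [e]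
      · intro k hk hk0
        rw [← Finset.mul_sum, sum_e Q hQ0 k (hQ k hk hk0), mul_zero]
    have hre : ∑ a ∈ range Q, (g (((a : ℝ) / Q : ℝ) : AddCircle (1 : ℝ))).re = Q * (c 0).re := by
      have := congrArg Complex.re hsum
      rw [Complex.re_sum] at this
      rw [this]
      simp
    have hlow : ∑ a ∈ range Q, (((a : ℝ) / Q - ((a : ℝ) / Q) ^ 100) - 0.001) ≤
        ∑ a ∈ range Q, (g (((a : ℝ) / Q : ℝ) : AddCircle (1 : ℝ))).re := by
      apply Finset.sum_le_sum
      intro a ha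
      have h1 := hclose ((a : ℝ) / Q)
      have h2 : Int.fract ((a : ℝ) / Q) = (a : ℝ) / Q := by
        rw [Int.fract_eq_self]
        refine ⟨by positivity, ?_⟩
        rw [div_lt_one hQr]
        exact_mod_cast Finset.mem_range.1 ha
      rw [h2] at h1
      have := (abs_le.1 h1).1
      linarith
    rw [hre, Finset.sum_sub_distrib, Finset.sum_sub_distrib, Finset.sum_const, Finset.card_range,
      nsmul_eq_mul] at hlow
    have hs1 : ∑ a ∈ range Q, (a : ℝ) / Q = ((Q : ℝ) - 1) / 2 := by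
      rw [← Finset.sum_div]
      have h1 : ∑ a ∈ range Q, (a : ℝ) = Q * (Q - 1) / 2 := by
        clear * -
        induction Q with
        | zero => simp
        | succ Q ih => rw [Finset.sum_range_succ, ih]; push_cast; ring
      rw [h1]
      field_simp
    have hs2 : ∑ a ∈ range Q, ((a : ℝ) / Q) ^ 100 ≤ Q / 101 := by
      simp_rw [div_pow]
      rw [← Finset.sum_div, div_le_iff₀ (by positivity)]
      have h1 := sum_pow_le 100 Q
      refine h1.trans (le_of_eq ?_)
      push_cast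
      ring
    rw [hs1] at hlow
    have hQk : (1000 : ℝ) ≤ Q := by exact_mod_cast hQ1000
    by_contra hcon
    push Not at hcon
    have : (Q : ℝ) * (c 0).re ≤ Q * 0.485 := mul_le_mul_of_nonneg_left hcon.le hQr.le
    nlinarith
  refine ⟨S, fun k => c k - if k = 0 then 0.001 else 0, Finset.mem_insert_self _ _, ?_, ?_⟩
  · simp only [if_true, Complex.sub_re]
    have : ((0.001 : ℂ)).re = 0.001 := by norm_num
    rw [this]
    linarith
  · intro x
    have h1 : ∑ k ∈ S, (c k - if k = 0 then 0.001 else 0) * e (k * x) =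
        g (x : AddCircle (1 : ℝ)) - 0.001 := by
      rw [hgx x]
      simp_rw [sub_mul]
      rw [Finset.sum_sub_distrib]
      congr 1
      rw [Finset.sum_eq_single_of_mem 0 (Finset.mem_insert_self _ _)]
      · simp [e]
      · intro k _ hk0
        simp [hk0]
    rw [h1, Complex.sub_re]
    have h2 : ((0.001 : ℂ)).re = 0.001 := by norm_num
    rw [h2]
    have h3 := (abs_le.1 (hclose x)).2
    have h4 : 0 ≤ Int.fract x ^ 100 := pow_nonneg (Int.fract_nonneg x) _
    linarith

end Pool.Agent.R518.RS
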