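import Mathlib
import Pool.Agent.R518.RS.Trig

/-! Exponential sums over a subgroup of prime order modulo `p`, and blocks of powers of two. -/

set_option autoImplicit false

open Finset

namespace Pool.Agent.R518.RS

/-- the absolute value of the exponential sum over `a g^j`, `j < l` -/
noncomputable def W (p : ℕ) [NeZero p] (l : ℕ) (g a : ZMod p) : ℝ :=
  ‖∑ j ∈ range l, ((ZMod.stdAddChar (a * g ^ j) : ℂ))‖

lemma conj_std (p : ℕ) [NeZero p] (x : ZMod p) :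
    (starRingEnd ℂ) (ZMod.stdAddChar x : ℂ) = ZMod.stdAddChar (-x) := by
  rw [ZMod.stdAddChar_apply, ZMod.stdAddChar_apply, AddChar.map_neg_eq_inv]
  rw [Circle.coe_inv_eq_conj]

lemma W_sq_sum (p : ℕ) [hp : Fact p.Prime] (l : ℕ) (g : ZMod p) (hg : orderOf g = l) :
    ∑ a : ZMod p, W p l g a ^ 2 = (p : ℝ) * l := by
  classical
  have hinj : ∀ j ∈ range l, ∀ j' ∈ range l, g ^ j - g ^ j' = 0 → j = j' := by
    intro j hj j' hj' h
    rw [sub_eq_zero] at h
    rw [Finset.mem_range] at hj hj'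
    apply pow_injOn_Iio_orderOf (x := g) _ _ h
    · rw [hg]; exact hj
    · rw [hg]; exact hj'
  have h1 : ∀ a : ZMod p, ((W p l g a ^ 2 : ℝ) : ℂ) =
      ∑ j ∈ range l, ∑ j' ∈ range l, (ZMod.stdAddChar (a * (g ^ j - g ^ j')) : ℂ) := by
    intro a
    unfold W
    rw [← Complex.normSq_eq_norm_sq, ← Complex.mul_conj, map_sum, Finset.sum_mul_sum]
    apply Finset.sum_congr rfl
    intro j _
    apply Finset.sum_congr rfl
    intro j' _
    rw [conj_std, ← AddChar.map_add_eq_mul]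
    congr 1
    ring
  have h2 : ((∑ a : ZMod p, W p l g a ^ 2 : ℝ) : ℂ) = (p : ℂ) * l := by
    push_cast
    have h3 : ∀ a : ZMod p, ((W p l g a : ℂ)) ^ 2 =
        ∑ j ∈ range l, ∑ j' ∈ range l, (ZMod.stdAddChar (a * (g ^ j - g ^ j')) : ℂ) := by
      intro a
      rw [← h1 a]; push_cast; rfl
    simp_rw [h3]
    rw [Finset.sum_comm]
    have h4 : ∀ j ∈ range l, ∑ a : ZMod p, ∑ j' ∈ range l,
        (ZMod.stdAddChar (a * (g ^ j - g ^ j')) : ℂ) = p := by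
      intro j hj
      rw [Finset.sum_comm]
      rw [Finset.sum_eq_single_of_mem j hj]
      · rw [sub_self]
        simp
      · intro j' hj' hne
        rw [AddChar.sum_mulShift _ (ZMod.isPrimitive_stdAddChar p)]
        rw [if_neg]
        · simp
        · intro h
          exact hne (hinj j hj j' hj' h).symm
    rw [Finset.sum_congr rfl h4, Finset.sum_const, Finset.card_range, nsmul_eq_mul, mul_comm]
  exact_mod_cast h2

lemma e_std (p : ℕ) [NeZero p] (t : ℤ) : e ((t : ℝ) / p) = ZMod.stdAddChar (t : ZMod p) := by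
  rw [ZMod.stdAddChar_coe]
  unfold e
  congr 1
  push_cast
  ring

lemma norm_std (p : ℕ) [NeZero p] (t : ZMod p) : ‖(ZMod.stdAddChar t : ℂ)‖ = 1 := by
  rw [ZMod.stdAddChar_apply]
  exact Circle.norm_coe _

/-- a block of powers of two -/
lemma block (p : ℕ) [hp : Fact p.Prime] (m l n s : ℕ) (hm : 0 < m) (hpm : ¬ p ∣ m)
    (hdiv : m ∣ 2 ^ n * (2 ^ s - 1)) (k : ℤ) :
    ‖∑ j ∈ range l, e (k * (((2 ^ (n + j * s) : ℕ) : ℝ) / ((p * m : ℕ) : ℝ)))‖ =
      W p l ((2 : ZMod p) ^ s) (k * (m : ZMod p)⁻¹ * 2 ^ n) := by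
  have hp0 : (p : ℝ) ≠ 0 := by exact_mod_cast hp.out.ne_zero
  have hm0 : (m : ℝ) ≠ 0 := by positivity
  have hmz : (m : ZMod p) ≠ 0 := by
    rwa [Ne, ZMod.natCast_eq_zero_iff]
  have ht : ∀ j : ℕ, ∃ t : ℤ, (2 : ℤ) ^ (n + j * s) = 2 ^ n + m * t := by
    intro j
    have h1 : ((m : ℕ) : ℤ) ∣ 2 ^ n * (2 ^ s - 1) := by
      have := Int.natCast_dvd_natCast.2 hdiv
      have h2 : ((2 ^ n * (2 ^ s - 1) : ℕ) : ℤ) = 2 ^ n * (2 ^ s - 1) := by
        rw [Nat.cast_mul, Nat.cast_sub Nat.one_le_two_pow]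
        push_cast
        ring
      rwa [h2] at this
    have h2 : ((2 : ℤ) ^ s - 1) ∣ (2 ^ s) ^ j - 1 := by
      simpa using sub_dvd_pow_sub_pow ((2 : ℤ) ^ s) 1 j
    have h3 : (m : ℤ) ∣ 2 ^ n * ((2 ^ s) ^ j - 1) := h1.trans (mul_dvd_mul_left _ h2)
    obtain ⟨t, ht⟩ := h3
    refine ⟨t, ?_⟩
    rw [← ht, pow_add, mul_comm j s, pow_mul]
    ring
  choose t ht using ht
  have hterm : ∀ j : ℕ, e (k * (((2 ^ (n + j * s) : ℕ) : ℝ) / ((p * m : ℕ) : ℝ))) =
      (e (k * ((2 : ℝ) ^ n / (p * m))) * (ZMod.stdAddChar (-((k : ZMod p) * (m : ZMod p)⁻¹ * 2 ^ n)) : ℂ)) *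
        (ZMod.stdAddChar ((k : ZMod p) * (m : ZMod p)⁻¹ * 2 ^ n * ((2 : ZMod p) ^ s) ^ j) : ℂ) := by
    intro j
    have h1 : (k : ℝ) * (((2 ^ (n + j * s) : ℕ) : ℝ) / ((p * m : ℕ) : ℝ)) =
        k * ((2 : ℝ) ^ n / (p * m)) + ((k * t j : ℤ) : ℝ) / p := by
      have h2 : ((2 ^ (n + j * s) : ℕ) : ℝ) = 2 ^ n + m * t j := by
        have := ht j
        have h3 : (((2 : ℤ) ^ (n + j * s) : ℤ) : ℝ) = ((2 ^ n + m * t j : ℤ) : ℝ) := by rw [this]
        push_cast at h3 ⊢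
        exact h3
      rw [h2]
      push_cast
      field_simp
    rw [h1, e_add, e_std, mul_assoc, ← AddChar.map_add_eq_mul]
    congr 2
    have h4 : ((2 : ZMod p) ^ (n + j * s)) = 2 ^ n + m * t j := by
      have := congrArg (Int.cast : ℤ → ZMod p) (ht j)
      push_cast at this
      exact this
    have h5 : (t j : ZMod p) = (m : ZMod p)⁻¹ * (2 ^ (n + j * s) - 2 ^ n) := by
      rw [h4]
      field_simp
      ring
    push_cast
    rw [h5, pow_add, mul_comm j s, pow_mul]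
    ring
  simp_rw [hterm]
  rw [← Finset.mul_sum, norm_mul, norm_mul, norm_e, norm_std, one_mul, one_mul]
  rfl

end Pool.Agent.R518.RS
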