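import Mathlib
import Pool.Agent.R518.RS.Exp

/-! The lower bound for one modulus `p m`, and the mean over `m` of the exponential sums. -/

set_option autoImplicit false

open Finset

namespace Pool.Agent.R518.RS

lemma W_nonneg (p : ℕ) [NeZero p] (l : ℕ) (g a : ZMod p) : 0 ≤ W p l g a := norm_nonneg _

/-- the fractional part of `2^n/i` -/
noncomputable def fr (n i : ℕ) : ℝ := Int.fract (((2 ^ n : ℕ) : ℝ) / (i : ℝ))

lemma fr_nonneg (n i : ℕ) : 0 ≤ fr n i := Int.fract_nonneg _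

lemma pair_bound (S : Finset ℤ) (c : ℤ → ℂ) (h0 : 0 ∈ S)
    (hmin : ∀ x : ℝ, (∑ k ∈ S, c k * e (k * x)).re ≤ Int.fract x)
    (p : ℕ) [hp : Fact p.Prime] (m l s N M : ℕ) (hm : 0 < m) (hpm : ¬ p ∣ m)
    (hdiv : ∀ n, N ≤ n → m ∣ 2 ^ n * (2 ^ s - 1)) (hl : 0 < l) (hsl : s * l ≤ M) :
    (c 0).re * ((M : ℝ) - s * l) - ∑ k ∈ S.erase 0, ‖c k‖ * (∑ n ∈ Ioc N (N + M),
      W p l ((2 : ZMod p) ^ s) ((k : ZMod p) * (m : ZMod p)⁻¹ * 2 ^ n)) / l ≤
      ∑ n ∈ Ioc N (N + M), fr n (p * m) := by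
  classical
  set A := Ioc N (N + (M - s * l)) with hA
  set B := Ioc N (N + M) with hB
  have hlr : (0 : ℝ) < l := by exact_mod_cast hl
  have hAB : A ⊆ B := by
    intro n hn
    rw [hA, Finset.mem_Ioc] at hn
    rw [hB, Finset.mem_Ioc]
    omega
  have h1 : ∀ j ∈ range l, ∑ n ∈ A, fr (n + j * s) (p * m) ≤ ∑ n ∈ B, fr n (p * m) := by
    intro j hj
    rw [Finset.mem_range] at hj
    have hjs : j * s ≤ s * l := by
      rw [mul_comm s l]; exact Nat.mul_le_mul_right s hj.le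
    have h2 : ∑ n ∈ A, fr (n + j * s) (p * m) = ∑ n ∈ A.image (fun n => n + j * s), fr n (p * m) := by
      rw [Finset.sum_image]
      intro a _ b _ hab
      simpa using hab
    rw [h2]
    apply Finset.sum_le_sum_of_subset_of_nonneg
    · intro n hn
      rw [Finset.mem_image] at hn
      obtain ⟨a, ha, rfl⟩ := hn
      rw [hA, Finset.mem_Ioc] at ha
      rw [hB, Finset.mem_Ioc]
      omega
    · intro n _ _
      exact fr_nonneg _ _
  have h2 : ∑ n ∈ A, ∑ j ∈ range l, fr (n + j * s) (p * m) ≤ l * ∑ n ∈ B, fr n (p * m) := by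
    rw [Finset.sum_comm]
    calc ∑ j ∈ range l, ∑ n ∈ A, fr (n + j * s) (p * m) ≤ ∑ j ∈ range l, ∑ n ∈ B, fr n (p * m) :=
          Finset.sum_le_sum h1
      _ = _ := by rw [Finset.sum_const, Finset.card_range, nsmul_eq_mul]
  have h3 : ∀ n ∈ A, (l : ℝ) * (c 0).re - ∑ k ∈ S.erase 0, ‖c k‖ *
      W p l ((2 : ZMod p) ^ s) ((k : ZMod p) * (m : ZMod p)⁻¹ * 2 ^ n) ≤
      ∑ j ∈ range l, fr (n + j * s) (p * m) := by
    intro n hn
    rw [hA, Finset.mem_Ioc] at hn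
    have h4 : (∑ j ∈ range l, ∑ k ∈ S, c k *
        e (k * (((2 ^ (n + j * s) : ℕ) : ℝ) / ((p * m : ℕ) : ℝ)))).re ≤
        ∑ j ∈ range l, fr (n + j * s) (p * m) := by
      rw [Complex.re_sum]
      apply Finset.sum_le_sum
      intro j _
      exact hmin _
    refine le_trans ?_ h4
    rw [Finset.sum_comm, ← Finset.add_sum_erase S _ h0, Complex.add_re]
    have h5 : (∑ j ∈ range l, c 0 * e (((0 : ℤ) : ℝ) *
        (((2 ^ (n + j * s) : ℕ) : ℝ) / ((p * m : ℕ) : ℝ)))).re = l * (c 0).re := by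
      have : ∀ j ∈ range l, c 0 * e (((0 : ℤ) : ℝ) *
        (((2 ^ (n + j * s) : ℕ) : ℝ) / ((p * m : ℕ) : ℝ))) = c 0 := by
        intro j _
        simp [e]
      rw [Finset.sum_congr rfl this, Finset.sum_const, Finset.card_range, nsmul_eq_mul]
      simp
    rw [h5, Complex.re_sum]
    have h6 : ∀ k ∈ S.erase 0, -(‖c k‖ *
        W p l ((2 : ZMod p) ^ s) ((k : ZMod p) * (m : ZMod p)⁻¹ * 2 ^ n)) ≤
        (∑ j ∈ range l, c k * e (k * (((2 ^ (n + j * s) : ℕ) : ℝ) / ((p * m : ℕ) : ℝ)))).re := by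
      intro k _
      rw [← block p m l n s hm hpm (hdiv n (by omega)) k, ← norm_mul, Finset.mul_sum]
      exact (abs_le.1 (Complex.abs_re_le_norm _)).1
    have h7 := Finset.sum_le_sum h6
    rw [Finset.sum_neg_distrib] at h7
    linarith
  have h4 : ∑ n ∈ A, ((l : ℝ) * (c 0).re - ∑ k ∈ S.erase 0, ‖c k‖ *
      W p l ((2 : ZMod p) ^ s) ((k : ZMod p) * (m : ZMod p)⁻¹ * 2 ^ n)) ≤
      l * ∑ n ∈ B, fr n (p * m) := (Finset.sum_le_sum h3).trans h2
  rw [Finset.sum_sub_distrib, Finset.sum_const, nsmul_eq_mul] at h4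
  have hcard : (A.card : ℝ) = (M : ℝ) - s * l := by
    rw [hA, Nat.card_Ioc]
    have : N + (M - s * l) - N = M - s * l := by omega
    rw [this, Nat.cast_sub hsl]
    push_cast
    ring
  rw [hcard] at h4
  have h5 : ∑ n ∈ A, ∑ k ∈ S.erase 0, ‖c k‖ *
      W p l ((2 : ZMod p) ^ s) ((k : ZMod p) * (m : ZMod p)⁻¹ * 2 ^ n) ≤
      ∑ k ∈ S.erase 0, ‖c k‖ * ∑ n ∈ B,
      W p l ((2 : ZMod p) ^ s) ((k : ZMod p) * (m : ZMod p)⁻¹ * 2 ^ n) := by
    rw [Finset.sum_comm]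
    apply Finset.sum_le_sum
    intro k _
    rw [← Finset.mul_sum]
    apply mul_le_mul_of_nonneg_left _ (norm_nonneg _)
    apply Finset.sum_le_sum_of_subset_of_nonneg hAB
    intro n _ _
    exact W_nonneg _ _ _ _
  have h6 : ∑ k ∈ S.erase 0, ‖c k‖ * (∑ n ∈ B,
      W p l ((2 : ZMod p) ^ s) ((k : ZMod p) * (m : ZMod p)⁻¹ * 2 ^ n)) / l =
      (∑ k ∈ S.erase 0, ‖c k‖ * ∑ n ∈ B,
      W p l ((2 : ZMod p) ^ s) ((k : ZMod p) * (m : ZMod p)⁻¹ * 2 ^ n)) / l := by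
    rw [Finset.sum_div]
  rw [h6]
  have h7 : (l : ℝ) * ((c 0).re * ((M : ℝ) - s * l)) - (∑ k ∈ S.erase 0, ‖c k‖ * ∑ n ∈ B,
      W p l ((2 : ZMod p) ^ s) ((k : ZMod p) * (m : ZMod p)⁻¹ * 2 ^ n)) ≤
      l * ∑ n ∈ B, fr n (p * m) := by
    have : (l : ℝ) * ((c 0).re * ((M : ℝ) - s * l)) = ((M : ℝ) - s * l) * (l * (c 0).re) := by ring
    rw [this]
    linarith
  rw [← mul_le_mul_iff_right₀ hlr]
  rw [mul_sub, mul_div_cancel₀ _ hlr.ne']
  exact h7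

/-- fibre bound -/
lemma card_fiber (p Y : ℕ) [hp : Fact p.Prime] (a : ZMod p) :
    ((Icc 1 Y).filter (fun m : ℕ => (m : ZMod p) = a)).card ≤ Y / p + 1 := by
  classical
  rw [← Finset.card_range (Y / p + 1)]
  apply Finset.card_le_card_of_injOn (fun m => m / p)
  · intro m hm
    have hm' := Finset.mem_filter.1 (Finset.mem_coe.1 hm)
    rw [Finset.mem_Icc] at hm'
    simp only [Finset.coe_range, Set.mem_Iio]
    have := Nat.div_le_div_right (c := p) hm'.1.2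
    omega
  · intro m hm m' hm' h
    have h1 := (Finset.mem_filter.1 (Finset.mem_coe.1 hm)).2
    have h2 := (Finset.mem_filter.1 (Finset.mem_coe.1 hm')).2
    have h3 : (m : ZMod p) = (m' : ZMod p) := h1.trans h2.symm
    rw [ZMod.natCast_eq_natCast_iff'] at h3
    simp only at h
    rw [← Nat.div_add_mod m p, ← Nat.div_add_mod m' p, h, h3]

lemma sum_residues (p Y : ℕ) [hp : Fact p.Prime] (F : ZMod p → ℝ) (hF : ∀ a, 0 ≤ F a) :
    ∑ m ∈ Icc 1 Y, F (m : ZMod p) ≤ ((Y / p + 1 : ℕ) : ℝ) * ∑ a : ZMod p, F a := by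
  classical
  have h1 : ∑ m ∈ Icc 1 Y, F (m : ZMod p) =
      ∑ a : ZMod p, ∑ m ∈ (Icc 1 Y).filter (fun m : ℕ => (m : ZMod p) = a), F (m : ZMod p) := by
    rw [Finset.sum_fiberwise]
  rw [h1, Finset.mul_sum]
  apply Finset.sum_le_sum
  intro a _
  have h2 : ∑ m ∈ (Icc 1 Y).filter (fun m : ℕ => (m : ZMod p) = a), F (m : ZMod p) =
      ((Icc 1 Y).filter (fun m : ℕ => (m : ZMod p) = a)).card * F a := by
    rw [Finset.sum_congr rfl (fun m hm => by rw [(Finset.mem_filter.1 hm).2]), Finset.sum_const,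
      nsmul_eq_mul]
  rw [h2]
  apply mul_le_mul_of_nonneg_right _ (hF a)
  exact_mod_cast card_fiber p Y a

/-- mean over `m` -/
lemma mean_W (p Y : ℕ) [hp : Fact p.Prime] (l : ℕ) (g : ZMod p) (hg : orderOf g = l) (hl : 0 < l)
    (u : ZMod p) (hu : u ≠ 0) (lam : ℝ) (hlam : 0 < lam) (hpY : p ≤ Y) :
    ∑ m ∈ Icc 1 Y, W p l g (u * (m : ZMod p)⁻¹) / l ≤ lam * Y + 2 * Y / (lam * l) := by
  have hlr : (0 : ℝ) < l := by exact_mod_cast hl
  have hp0 : (0 : ℝ) < p := by exact_mod_cast hp.out.pos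
  have h1 : ∑ m ∈ Icc 1 Y, W p l g (u * (m : ZMod p)⁻¹) ^ 2 ≤
      ((Y / p + 1 : ℕ) : ℝ) * ((p : ℝ) * l) := by
    have h2 := sum_residues p Y (fun a => W p l g (u * a⁻¹) ^ 2) (fun a => by positivity)
    refine h2.trans (le_of_eq ?_)
    congr 1
    rw [← W_sq_sum p l g hg]
    exact Fintype.sum_equiv ((Equiv.inv (ZMod p)).trans (Equiv.mulLeft₀ u hu)) _ _ (fun a => rfl)
  have h3 : (((Y / p + 1 : ℕ) : ℝ)) * ((p : ℝ) * l) ≤ 2 * Y * l := by
    have h4 : ((Y / p : ℕ) : ℝ) ≤ (Y : ℝ) / p := Nat.cast_div_le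
    have h5 : ((Y / p : ℕ) : ℝ) * p ≤ Y := by
      rwa [le_div_iff₀ hp0] at h4
    have h6 : (p : ℝ) ≤ Y := by exact_mod_cast hpY
    push_cast
    nlinarith
  have h4 : ∀ m ∈ Icc 1 Y, W p l g (u * (m : ZMod p)⁻¹) / l ≤
      lam + (W p l g (u * (m : ZMod p)⁻¹) ^ 2) / (lam * l ^ 2) := by
    intro m _
    set w := W p l g (u * (m : ZMod p)⁻¹) / l with hw
    have hw0 : 0 ≤ w := div_nonneg (W_nonneg _ _ _ _) hlr.le
    have h5 : (W p l g (u * (m : ZMod p)⁻¹) ^ 2) / (lam * l ^ 2) = w ^ 2 / lam := by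
      rw [hw]; field_simp
    rw [h5]
    rcases le_or_gt w lam with h | h
    · have : 0 ≤ w ^ 2 / lam := by positivity
      linarith
    · have : w ≤ w ^ 2 / lam := by
        rw [le_div_iff₀ hlam]; nlinarith
      linarith
  have h5 := Finset.sum_le_sum h4
  rw [Finset.sum_add_distrib, Finset.sum_const, Nat.card_Icc, nsmul_eq_mul] at h5
  refine h5.trans ?_
  have h6 : ∑ m ∈ Icc 1 Y, W p l g (u * (m : ZMod p)⁻¹) ^ 2 / (lam * l ^ 2) ≤
      2 * Y / (lam * l) := by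
    rw [← Finset.sum_div, div_le_div_iff₀ (by positivity) (by positivity)]
    have h7 := h1.trans h3
    have h8 : (∑ m ∈ Icc 1 Y, W p l g (u * (m : ZMod p)⁻¹) ^ 2) * (lam * l) ≤
      (2 * Y * l) * (lam * l) := mul_le_mul_of_nonneg_right h7 (by positivity)
    nlinarith
  have h7 : ((Y + 1 - 1 : ℕ) : ℝ) = Y := by simp
  rw [h7]
  linarith

end Pool.Agent.R518.RS
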