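import Mathlib
import Pool.Agent.R518.RS.Pair
import Pool.Agent.R518.RS.GoodSum

/-! The lower bound for a modulus `i = p m` with a good prime `p`. -/

set_option autoImplicit false

open Finset Filter

namespace Pool.Agent.R518.RS

open Classical in
/-- a large prime factor of the order of `2` -/
noncomputable def ell (L p : ℕ) : ℕ := if h : Gd L p then h.choose else 2

lemma ell_spec {L p : ℕ} (h : Gd L p) :
    (ell L p).Prime ∧ L < ell L p ∧ ell L p ∣ orderOf (2 : ZMod p) := by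
  unfold ell
  rw [dif_pos h]
  exact h.choose_spec

/-- an element of order `ell` -/
noncomputable def g0 (L p : ℕ) : ZMod p := 2 ^ (orderOf (2 : ZMod p) / ell L p)

lemma order_g0 {L p : ℕ} (hp : p.Prime) (h2 : p ≠ 2) (h : Gd L p) : orderOf (g0 L p) = ell L p := by
  obtain ⟨h3, -, h4⟩ := ell_spec h
  have ht := order_pos p hp h2
  unfold g0
  have h5 : orderOf (2 : ZMod p) / ell L p ≠ 0 :=
    (Nat.div_pos (Nat.le_of_dvd ht h4) h3.pos).ne'
  rw [orderOf_pow_of_dvd h5 (Nat.div_dvd_of_dvd h4), Nat.div_div_self h4 ht.ne']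

lemma W_pow (p : ℕ) [hp : Fact p.Prime] (l : ℕ) (g a : ZMod p) (hg : orderOf g = l) (hl : 0 < l)
    (t : ℕ) (ht : Nat.Coprime l t) : W p l (g ^ t) a = W p l g a := by
  classical
  have hgt : orderOf (g ^ t) = l := by
    rw [← hg]; exact Nat.Coprime.orderOf_pow (by rw [hg]; exact ht)
  have hinj : ∀ h : ZMod p, orderOf h = l → Set.InjOn (fun j => h ^ j) (range l : Set ℕ) := by
    intro h hh j hj j' hj' hjj
    apply pow_injOn_Iio_orderOf (x := h) _ _ hjj
    · rw [hh]; simpa using hj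
    · rw [hh]; simpa using hj'
  have himg : (range l).image (fun j => (g ^ t) ^ j) = (range l).image (fun j => g ^ j) := by
    apply Finset.eq_of_subset_of_card_le
    · intro x hx
      rw [Finset.mem_image] at hx ⊢
      obtain ⟨j, hj, rfl⟩ := hx
      refine ⟨(t * j) % l, Finset.mem_range.2 (Nat.mod_lt _ hl), ?_⟩
      rw [← pow_mul, ← hg, pow_mod_orderOf]
    · rw [Finset.card_image_of_injOn (hinj g hg), Finset.card_image_of_injOn (hinj _ hgt)]
  unfold W
  congr 1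
  have h1 : ∀ h : ZMod p, orderOf h = l → ∑ j ∈ range l, (ZMod.stdAddChar (a * h ^ j) : ℂ) =
      ∑ x ∈ (range l).image (fun j => h ^ j), (ZMod.stdAddChar (a * x) : ℂ) := by
    intro h hh
    rw [Finset.sum_image (hinj h hh)]
  rw [h1 _ hgt, h1 _ hg, himg]

/-- the error term of a pair -/
noncomputable def err (S : Finset ℤ) (c : ℤ → ℂ) (L N M p m : ℕ) [NeZero p] : ℝ :=
  ∑ k ∈ S.erase 0, ‖c k‖ * (∑ n ∈ Ioc N (N + M),
      W p (ell L p) (g0 L p) ((k : ZMod p) * (m : ZMod p)⁻¹ * 2 ^ n)) / (ell L p : ℝ)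

lemma err_nonneg (S : Finset ℤ) (c : ℤ → ℂ) (L N M p m : ℕ) [NeZero p] : 0 ≤ err S c L N M p m := by
  unfold err
  apply Finset.sum_nonneg
  intro k _
  have : 0 ≤ ∑ n ∈ Ioc N (N + M),
      W p (ell L p) (g0 L p) ((k : ZMod p) * (m : ZMod p)⁻¹ * 2 ^ n) :=
    Finset.sum_nonneg (fun n _ => W_nonneg _ _ _ _)
  positivity

theorem pair_good (S : Finset ℤ) (c : ℤ → ℂ) (h0 : 0 ∈ S) (hc0 : 0 ≤ (c 0).re)
    (hmin : ∀ x : ℝ, (∑ k ∈ S, c k * e (k * x)).re ≤ Int.fract x)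
    (L N M p m : ℕ) (hp : p.Prime) (h2 : p ≠ 2) [NeZero p] (hgd : Gd L p)
    (hm : 0 < m) (hpm : ¬ p ∣ m) (hN : p * m ≤ N) (hNM : N = 16 * M)
    (hbad : m ∉ badset (ell L p) (N / p) N)
    (F : Finset ℕ) (hF : ∀ q ∈ F, q.Prime ∧ q ≠ 2 ∧ q ∣ m ∧ ¬ q ^ 2 ∣ m) (hFc : 10 ≤ F.card) :
    (c 0).re * ((M : ℝ) * (31 / 32)) - err S c L N M p m ≤ ∑ n ∈ Ioc N (N + M), fr n (p * m) := by
  haveI : Fact p.Prime := ⟨hp⟩
  obtain ⟨hl, -, hlt⟩ := ell_spec hgd
  set l := ell L p with hldef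
  set m' := ordCompl[2] m with hm'
  have hmm' : 2 ^ (m.factorization 2) * m' = m := Nat.ordProj_mul_ordCompl_eq_self m 2
  have hm'0 : 0 < m' := Nat.ordCompl_pos 2 hm.ne'
  have hodd : m'.Coprime 2 := (Nat.coprime_ordCompl Nat.prime_two hm.ne').symm
  have hm'm : m' ≤ m := Nat.le_of_dvd hm (Nat.ordCompl_dvd m 2)
  have hmN : m ≤ N := le_trans (Nat.le_mul_of_pos_left m hp.pos) hN
  have hF' : ∀ q ∈ F, q.Prime ∧ q ≠ 2 ∧ q ∣ m' ∧ ¬ q ^ 2 ∣ m' := by
    intro q hq
    obtain ⟨h3, h4, h5, h6⟩ := hF q hq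
    refine ⟨h3, h4, ?_, ?_⟩
    · have h7 : Nat.Coprime q (2 ^ (m.factorization 2)) :=
        Nat.Coprime.pow_right _ ((Nat.coprime_primes h3 Nat.prime_two).2 h4)
      rw [← hmm'] at h5
      exact h7.dvd_of_dvd_mul_left h5
    · intro h
      exact h6 (h.trans (Nat.ordCompl_dvd m 2))
  obtain ⟨E, hE0, -, hEm, hEle⟩ := exponent F m' hm'0 hodd hF'
  set tau := orderOf (2 : ZMod m') with htau
  have hpowE : (2 : ZMod m') ^ E = 1 := by
    have h3 : (((2 ^ E - 1 : ℕ)) : ZMod m') = 0 := (ZMod.natCast_eq_zero_iff _ _).2 hEm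
    rw [Nat.cast_sub Nat.one_le_two_pow] at h3
    push_cast at h3
    exact sub_eq_zero.1 h3
  have htE : tau ∣ E := orderOf_dvd_of_pow_eq_one hpowE
  have htau0 : 0 < tau := Nat.pos_of_dvd_of_pos htE hE0
  have htauE : tau ≤ E := Nat.le_of_dvd hE0 htE
  have hcop : Nat.Coprime l tau := by
    rw [Nat.Prime.coprime_iff_not_dvd hl]
    intro h
    apply hbad
    have h3 := dvd_order l m' hl hm'0 hodd h
    unfold badset
    rw [Finset.mem_filter, Finset.mem_Ioc]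
    refine ⟨⟨hm, ?_⟩, ?_⟩
    · rw [Nat.le_div_iff_mul_le hp.pos, mul_comm]; exact hN
    · rcases h3 with h4 | ⟨k, hk0, hkm, hkd⟩
      · exact Or.inl (h4.trans (Nat.ordCompl_dvd m 2))
      · right
        refine ⟨k, ?_, hkd.trans (Nat.ordCompl_dvd m 2)⟩
        rw [Finset.mem_Ioc]
        refine ⟨hk0, ?_⟩
        have h5 : k ≤ k * l := Nat.le_mul_of_pos_right k hl.pos
        omega
  set t := orderOf (2 : ZMod p) with ht
  have ht0 : 0 < t := order_pos p hp h2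
  have htp : t ≤ p := by
    have h3 : (2 : ZMod p) ≠ 0 := by
      intro h
      have h3 : ((2 : ℕ) : ZMod p) = 0 := by exact_mod_cast h
      rw [ZMod.natCast_eq_zero_iff] at h3
      exact h2 ((Nat.prime_dvd_prime_iff_eq hp Nat.prime_two).1 h3)
    have h4 := Nat.le_of_dvd (by have := hp.two_le; omega) (ZMod.orderOf_dvd_card_sub_one h3)
    omega
  set s := (t / l) * tau with hs
  have hg : (2 : ZMod p) ^ s = (g0 L p) ^ tau := by
    rw [hs, pow_mul]; rfl
  have hsl : s * l = t * tau := by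
    rw [hs, mul_assoc, mul_comm tau l, ← mul_assoc, Nat.div_mul_cancel hlt]
  have hsl2 : s * l * 32 ≤ M := by
    have h3 : tau * 2 ^ 10 ≤ 2 * m' := by
      calc tau * 2 ^ 10 ≤ E * 2 ^ F.card :=
            Nat.mul_le_mul htauE (Nat.pow_le_pow_right (by norm_num) hFc)
        _ ≤ 2 * m' := hEle
    have h4 : s * l * 2 ^ 10 ≤ 32 * M := by
      rw [hsl]
      calc t * tau * 2 ^ 10 = t * (tau * 2 ^ 10) := by ring
        _ ≤ p * (2 * m') := Nat.mul_le_mul htp h3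
        _ ≤ p * (2 * m) := Nat.mul_le_mul_left _ (Nat.mul_le_mul_left _ hm'm)
        _ = 2 * (p * m) := by ring
        _ ≤ 2 * N := Nat.mul_le_mul_left _ hN
        _ = 32 * M := by rw [hNM]; ring
    omega
  have hdiv : ∀ n, N ≤ n → m ∣ 2 ^ n * (2 ^ s - 1) := by
    intro n hn
    have h3 : m.factorization 2 ≤ n := by
      have h4 : 2 ^ (m.factorization 2) ≤ m :=
        Nat.le_of_dvd hm (Nat.ordProj_dvd m 2)
      have h5 : m < 2 ^ N := lt_of_le_of_lt hmN Nat.lt_two_pow_self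
      have h6 := (Nat.pow_lt_pow_iff_right (by norm_num : 1 < 2)).1 (lt_of_le_of_lt h4 h5)
      omega
    have h4 : m' ∣ 2 ^ s - 1 := by
      have h5 : m' ∣ 2 ^ tau - 1 := by
        rw [← ZMod.natCast_eq_zero_iff, Nat.cast_sub Nat.one_le_two_pow]
        push_cast
        rw [htau, pow_orderOf_eq_one, sub_self]
      rw [hs, mul_comm, pow_mul]
      have h6 := Nat.sub_dvd_pow_sub_pow (2 ^ tau) 1 (t / l)
      rw [one_pow] at h6
      exact h5.trans h6
    calc m = 2 ^ (m.factorization 2) * m' := hmm'.symm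
      _ ∣ 2 ^ n * (2 ^ s - 1) := Nat.mul_dvd_mul (Nat.pow_dvd_pow 2 h3) h4
  have hslM : s * l ≤ M := by omega
  have hmain := pair_bound S c h0 hmin p m l s N M hm hpm hdiv hl.pos hslM
  refine le_trans ?_ hmain
  have hW : ∀ a : ZMod p, W p l ((2 : ZMod p) ^ s) a = W p l (g0 L p) a := by
    intro a
    rw [hg]
    exact W_pow p l (g0 L p) a (order_g0 hp h2 hgd) hl.pos tau hcop
  simp_rw [hW]
  have h5 : ((M : ℝ) * (31 / 32)) ≤ (M : ℝ) - s * l := by
    have : ((s * l * 32 : ℕ) : ℝ) ≤ M := by exact_mod_cast hsl2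
    push_cast at this
    linarith
  have h6 := mul_le_mul_of_nonneg_left h5 hc0
  unfold err
  linarith

end Pool.Agent.R518.RS
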