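import Mathlib
import Pool.Agent.R518.RS.PairGood

/-! The mean of the remainder sums is at least `0.21 N^2`. -/

set_option autoImplicit false

open Finset Filter

namespace Pool.Agent.R518.RS

lemma sum_err (S : Finset ℤ) (c : ℤ → ℂ) (L N M p Y : ℕ) (hp : p.Prime) (h2 : p ≠ 2) [NeZero p]
    (hgd : Gd L p) (hpY : p ≤ Y) (hS : ∀ k ∈ S.erase 0, ¬ (p : ℤ) ∣ k) (lam : ℝ) (hlam : 0 < lam) :
    ∑ m ∈ Icc 1 Y, err S c L N M p m ≤
      (∑ k ∈ S.erase 0, ‖c k‖) * (M * (lam * Y + 2 * Y / (lam * (ell L p : ℝ)))) := by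
  haveI : Fact p.Prime := ⟨hp⟩
  obtain ⟨hl, -, -⟩ := ell_spec hgd
  unfold err
  rw [Finset.sum_comm, Finset.sum_mul]
  apply Finset.sum_le_sum
  intro k hk
  rw [← Finset.sum_div, ← Finset.mul_sum, mul_div_assoc]
  apply mul_le_mul_of_nonneg_left _ (norm_nonneg _)
  rw [Finset.sum_comm, Finset.sum_div]
  have h3 : ∀ n ∈ Ioc N (N + M), (∑ m ∈ Icc 1 Y, W p (ell L p) (g0 L p)
      ((k : ZMod p) * (m : ZMod p)⁻¹ * 2 ^ n)) / (ell L p : ℝ) ≤
      lam * Y + 2 * Y / (lam * (ell L p : ℝ)) := by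
    intro n _
    have hu : (k : ZMod p) * 2 ^ n ≠ 0 := by
      apply mul_ne_zero
      · rw [Ne, ZMod.intCast_zmod_eq_zero_iff_dvd]
        exact hS k hk
      · apply pow_ne_zero
        intro h
        have h3 : ((2 : ℕ) : ZMod p) = 0 := by exact_mod_cast h
        rw [ZMod.natCast_eq_zero_iff] at h3
        exact h2 ((Nat.prime_dvd_prime_iff_eq hp Nat.prime_two).1 h3)
    have h4 := mean_W p Y (ell L p) (g0 L p) (order_g0 hp h2 hgd) hl.pos _ hu lam hlam hpY
    rw [Finset.sum_div]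
    refine le_trans (le_of_eq ?_) h4
    apply Finset.sum_congr rfl
    intro m _
    congr 2
    ring
  refine (Finset.sum_le_sum h3).trans (le_of_eq ?_)
  rw [Finset.sum_const, Nat.card_Ioc, nsmul_eq_mul]
  congr 1
  simp

/-- total version of the error -/
noncomputable def errT (S : Finset ℤ) (c : ℤ → ℂ) (L N M p m : ℕ) : ℝ :=
  if h : p ≠ 0 then (haveI : NeZero p := ⟨h⟩; err S c L N M p m) else 0

lemma errT_eq (S : Finset ℤ) (c : ℤ → ℂ) (L N M p m : ℕ) [hp : NeZero p] :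
    errT S c L N M p m = err S c L N M p m := by
  unfold errT
  rw [dif_pos hp.out]

lemma errT_nonneg (S : Finset ℤ) (c : ℤ → ℂ) (L N M p m : ℕ) : 0 ≤ errT S c L N M p m := by
  unfold errT
  split_ifs with h
  · haveI : NeZero p := ⟨h⟩
    exact err_nonneg S c L N M p m
  · exact le_rfl

lemma mod_eq (n i : ℕ) (hi : 0 < i) : ((2 ^ n % i : ℕ) : ℝ) = i * fr n i := by
  unfold fr
  have hir : (0 : ℝ) < i := by exact_mod_cast hi
  have h1 : ((2 ^ n : ℕ) : ℝ) = i * ((2 ^ n / i : ℕ) : ℝ) + ((2 ^ n % i : ℕ) : ℝ) := by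
    exact_mod_cast (Nat.div_add_mod (2 ^ n) i).symm
  have h2 : ((2 ^ n : ℕ) : ℝ) / i = ((2 ^ n / i : ℕ) : ℝ) + ((2 ^ n % i : ℕ) : ℝ) / i := by
    rw [h1]; field_simp
  rw [h2, Int.fract_natCast_add]
  have h3 : ((2 ^ n % i : ℕ) : ℝ) / i < 1 := by
    rw [div_lt_one hir]
    exact_mod_cast Nat.mod_lt _ hi
  rw [Int.fract_eq_self.2 ⟨by positivity, h3⟩]
  field_simp

/-- The main lower bound in finite form. -/
theorem lower_fin (S : Finset ℤ) (c : ℤ → ℂ) (h0 : 0 ∈ S) (hc0 : 0 ≤ (c 0).re)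
    (hmin : ∀ x : ℝ, (∑ k ∈ S, c k * e (k * x)).re ≤ Int.fract x)
    (P : Finset ℕ) (L N M y Z : ℕ) (hP : ∀ p ∈ P, p.Prime ∧ y < p ∧ p ≤ Z ∧ Gd L p)
    (hy : 2 ≤ y) (hyS : ∀ k ∈ S.erase 0, k.natAbs ≤ y) (hZ : Z * Z ≤ N) (hNM : N = 16 * M)
    (hL : 0 < L) (lam : ℝ) (hlam : 0 < lam) (mu : ℝ) (hmu : mu = ∑ p ∈ P, 1 / (p : ℝ))
    (hmu22 : 22 ≤ mu) :
    (c 0).re * ((M : ℝ) * (31 / 32)) * ((N : ℝ) ^ 2 / 2 - N * (4 * (N + 2 * Z) / mu + N / y +
        N * mu / L * (2 + Real.log N))) -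
      N * ((∑ k ∈ S.erase 0, ‖c k‖) * (M * (N * mu * (lam + 2 / (lam * L))))) ≤
    ∑ n ∈ Ioc N (N + M), ∑ i ∈ Ioc 0 N, ((2 ^ n % i : ℕ) : ℝ) := by
  classical
  have hmu0 : 0 < mu := by linarith
  have hLr : (0 : ℝ) < L := by exact_mod_cast hL
  have hyr : (0 : ℝ) < y := by exact_mod_cast (by omega : 0 < y)
  have hNlog : 0 ≤ Real.log N := Real.log_natCast_nonneg N
  set G := (Ioc 0 N).filter (fun i => 11 ≤ om P i ∧ (∀ p ∈ P, p ∣ i → ¬ p ^ 2 ∣ i) ∧
    (∀ p ∈ P, p ∣ i → i / p ∉ badset (ell L p) (N / p) N)) with hG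
  set E1 := (Ioc 0 N).filter (fun i => om P i < 11) with hE1
  set E2 := P.biUnion (fun p => (Ioc 0 N).filter (fun i => p ^ 2 ∣ i)) with hE2
  set E3 := P.biUnion (fun p => (badset (ell L p) (N / p) N).image (fun m => p * m)) with hE3
  have hcover : Ioc 0 N ⊆ G ∪ (E1 ∪ (E2 ∪ E3)) := by
    intro i hi
    rw [Finset.mem_union, Finset.mem_union, Finset.mem_union]
    by_cases h1 : 11 ≤ om P i
    · by_cases h2 : ∀ p ∈ P, p ∣ i → ¬ p ^ 2 ∣ i
      · by_cases h3 : ∀ p ∈ P, p ∣ i → i / p ∉ badset (ell L p) (N / p) N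
        · exact Or.inl (Finset.mem_filter.2 ⟨hi, h1, h2, h3⟩)
        · push Not at h3
          obtain ⟨p, hp, hpi, hb⟩ := h3
          right; right; right
          rw [hE3, Finset.mem_biUnion]
          exact ⟨p, hp, Finset.mem_image.2 ⟨i / p, hb, Nat.mul_div_cancel' hpi⟩⟩
      · push Not at h2
        obtain ⟨p, hp, hpi, hb⟩ := h2
        right; right; left
        rw [hE2, Finset.mem_biUnion]
        exact ⟨p, hp, Finset.mem_filter.2 ⟨hi, hb⟩⟩
    · right; left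
      exact Finset.mem_filter.2 ⟨hi, by omega⟩
  have hPcard : (P.card : ℝ) ≤ Z := by
    have h1 : P ⊆ Ioc 0 Z := by
      intro p hp
      obtain ⟨h1, h2, h3, -⟩ := hP p hp
      rw [Finset.mem_Ioc]; exact ⟨h1.pos, h3⟩
    have := Finset.card_le_card h1
    rw [Nat.card_Ioc] at this
    exact_mod_cast this
  have hE1c : (E1.card : ℝ) ≤ 4 * (N + 2 * Z) / mu := by
    have h1 := few P (fun p hp => (hP p hp).1) N 11 mu hmu hmu0 (by push_cast; linarith)
    refine h1.trans ?_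
    apply div_le_div_of_nonneg_right _ hmu0.le
    linarith
  have hE2c : (E2.card : ℝ) ≤ N / y := by
    have h1 : (E2.card : ℝ) ≤ ∑ p ∈ P, (N : ℝ) * ((p : ℝ) ^ 2)⁻¹ := by
      have h2 : E2.card ≤ ∑ p ∈ P, N / p ^ 2 := by
        refine Finset.card_biUnion_le.trans (le_of_eq ?_)
        apply Finset.sum_congr rfl
        intro p _
        rw [Nat.Ioc_filter_dvd_card_eq_div]
      calc (E2.card : ℝ) ≤ ((∑ p ∈ P, N / p ^ 2 : ℕ) : ℝ) := by exact_mod_cast h2
        _ ≤ _ := by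
          rw [Nat.cast_sum]
          apply Finset.sum_le_sum
          intro p _
          refine Nat.cast_div_le.trans (le_of_eq ?_)
          push_cast
          ring
    refine h1.trans ?_
    rw [← Finset.mul_sum, div_eq_mul_inv]
    apply mul_le_mul_of_nonneg_left _ (Nat.cast_nonneg _)
    rcases le_or_gt y Z with hyZ | hyZ
    · have h2 : ∑ p ∈ P, ((p : ℝ) ^ 2)⁻¹ ≤ ∑ p ∈ Ioc y Z, ((p : ℝ) ^ 2)⁻¹ := by
        apply Finset.sum_le_sum_of_subset_of_nonneg
        · intro p hp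
          obtain ⟨-, h3, h4, -⟩ := hP p hp
          rw [Finset.mem_Ioc]; exact ⟨h3, h4⟩
        · intro p _ _; positivity
      have h3 := sum_Ioc_inv_sq_le_sub (α := ℝ) (by omega : y ≠ 0) hyZ
      have h4 : (0 : ℝ) ≤ (Z : ℝ)⁻¹ := by positivity
      linarith
    · have h2 : P = ∅ := by
        apply Finset.eq_empty_of_forall_notMem
        intro p hp
        obtain ⟨-, h3, h4, -⟩ := hP p hp
        omega
      rw [h2, Finset.sum_empty]
      positivity
  have hE3c : (E3.card : ℝ) ≤ N * mu / L * (2 + Real.log N) := by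
    have h1 : (E3.card : ℝ) ≤ ∑ p ∈ P, ((badset (ell L p) (N / p) N).card : ℝ) := by
      have h2 : E3.card ≤ ∑ p ∈ P, (badset (ell L p) (N / p) N).card :=
        Finset.card_biUnion_le.trans (Finset.sum_le_sum (fun p _ => Finset.card_image_le))
      exact_mod_cast h2
    have h2 : ∀ p ∈ P, ((badset (ell L p) (N / p) N).card : ℝ) ≤
        (N / L * (2 + Real.log N)) * (1 / (p : ℝ)) := by
      intro p hp
      obtain ⟨h3, h4, h5, h6⟩ := hP p hp
      obtain ⟨h7, h8, -⟩ := ell_spec h6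
      refine (rare (ell L p) (N / p) N h7.pos).trans ?_
      have hp0 : (0 : ℝ) < p := by exact_mod_cast h3.pos
      have h9 : ((N / p : ℕ) : ℝ) ≤ N / p := Nat.cast_div_le
      have h10 : (L : ℝ) ≤ (ell L p : ℝ) := by exact_mod_cast h8.le
      have h11 : ((N / p : ℕ) : ℝ) / (ell L p : ℝ) ≤ (N / p) / L :=
        div_le_div₀ (by positivity) h9 hLr h10
      calc ((N / p : ℕ) : ℝ) / (ell L p : ℝ) * (2 + Real.log N)
          ≤ (N / p) / L * (2 + Real.log N) := mul_le_mul_of_nonneg_right h11 (by linarith)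
        _ = _ := by field_simp
    refine h1.trans ((Finset.sum_le_sum h2).trans (le_of_eq ?_))
    rw [← Finset.mul_sum, ← hmu]
    ring
  set bd := 4 * (N + 2 * Z) / mu + (N : ℝ) / y + N * mu / L * (2 + Real.log N) with hbd
  have hEsum : ∑ i ∈ E1 ∪ (E2 ∪ E3), (if i ≤ N then (i : ℝ) else 0) ≤ N * bd := by
    have h1 : ∑ i ∈ E1 ∪ (E2 ∪ E3), (if i ≤ N then (i : ℝ) else 0) ≤
        ∑ i ∈ E1 ∪ (E2 ∪ E3), (N : ℝ) := by
      apply Finset.sum_le_sum
      intro i _
      split_ifs with h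
      · exact_mod_cast h
      · positivity
    refine h1.trans ?_
    rw [Finset.sum_const, nsmul_eq_mul, mul_comm]
    apply mul_le_mul_of_nonneg_left _ (Nat.cast_nonneg _)
    have h2 : (((E1 ∪ (E2 ∪ E3)).card : ℕ) : ℝ) ≤ E1.card + (E2.card + E3.card) := by
      have h3 := Finset.card_union_le E1 (E2 ∪ E3)
      have h4 := Finset.card_union_le E2 E3
      exact_mod_cast h3.trans (Nat.add_le_add_left h4 _)
    rw [hbd]
    linarith
  have hGsum : (N : ℝ) ^ 2 / 2 - N * bd ≤ ∑ i ∈ G, (i : ℝ) := by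
    have h1 : ∑ i ∈ Ioc 0 N, (i : ℝ) = N * (N + 1) / 2 := by
      clear * -
      induction N with
      | zero => simp
      | succ n ih =>
        have h1 : Ioc 0 (n + 1) = insert (n + 1) (Ioc 0 n) := by
          ext k; simp only [Finset.mem_Ioc, Finset.mem_insert]; omega
        rw [h1, Finset.sum_insert (by simp), ih]
        push_cast; ring
    have h2 : ∑ i ∈ Ioc 0 N, (i : ℝ) = ∑ i ∈ Ioc 0 N, (if i ≤ N then (i : ℝ) else 0) := by
      apply Finset.sum_congr rfl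
      intro i hi
      rw [if_pos (Finset.mem_Ioc.1 hi).2]
    have h3 : ∑ i ∈ Ioc 0 N, (if i ≤ N then (i : ℝ) else 0) ≤
        ∑ i ∈ G, (if i ≤ N then (i : ℝ) else 0) +
        ∑ i ∈ E1 ∪ (E2 ∪ E3), (if i ≤ N then (i : ℝ) else 0) := by
      have h4 : ∀ i : ℕ, (0 : ℝ) ≤ if i ≤ N then (i : ℝ) else 0 := by
        intro i; split_ifs <;> positivity
      refine (Finset.sum_le_sum_of_subset_of_nonneg hcover (fun i _ _ => h4 i)).trans ?_
      have h5 := Finset.sum_union_inter (s₁ := G) (s₂ := E1 ∪ (E2 ∪ E3))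
        (f := fun i : ℕ => if i ≤ N then (i : ℝ) else 0)
      have h6 : 0 ≤ ∑ i ∈ G ∩ (E1 ∪ (E2 ∪ E3)), (if i ≤ N then (i : ℝ) else 0) :=
        Finset.sum_nonneg (fun i _ => h4 i)
      linarith
    have h4 : ∑ i ∈ G, (if i ≤ N then (i : ℝ) else 0) = ∑ i ∈ G, (i : ℝ) := by
      apply Finset.sum_congr rfl
      intro i hi
      rw [if_pos (Finset.mem_Ioc.1 (Finset.mem_filter.1 hi).1).2]
    have h5 : (N : ℝ) ^ 2 / 2 ≤ N * (N + 1) / 2 := by nlinarith [(Nat.cast_nonneg N : (0 : ℝ) ≤ N)]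
    rw [← h4]
    linarith
  -- choice of the prime
  have hch : ∀ i ∈ G, ∃ p ∈ P, p ∣ i := by
    intro i hi
    have h1 := (Finset.mem_filter.1 hi).2.1
    have h2 : 0 < (P.filter (fun p => p ∣ i)).card := by
      unfold om at h1; omega
    obtain ⟨p, hp⟩ := Finset.card_pos.1 h2
    rw [Finset.mem_filter] at hp
    exact ⟨p, hp⟩
  choose! q hqP hqd using hch
  have hi_eq : ∀ i ∈ G, q i * (i / q i) = i := fun i hi => Nat.mul_div_cancel' (hqd i hi)
  have hper : ∀ i ∈ G, (c 0).re * ((M : ℝ) * (31 / 32)) - errT S c L N M (q i) (i / q i) ≤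
      ∑ n ∈ Ioc N (N + M), fr n i := by
    intro i hi
    have hi' := hi
    rw [hG, Finset.mem_filter, Finset.mem_Ioc] at hi'
    obtain ⟨⟨hi0, hiN⟩, h11, hsq, hbd'⟩ := hi'
    obtain ⟨h1, h2, h3, h4⟩ := hP _ (hqP i hi)
    haveI : NeZero (q i) := ⟨h1.ne_zero⟩
    have hm0 : 0 < i / q i := Nat.div_pos (Nat.le_of_dvd hi0 (hqd i hi)) h1.pos
    have hpm : ¬ q i ∣ i / q i := by
      intro h
      apply hsq _ (hqP i hi) (hqd i hi)
      rw [sq, ← hi_eq i hi]
      rw [hi_eq i hi]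
      calc q i * q i ∣ q i * (i / q i) := Nat.mul_dvd_mul_left _ h
        _ = i := hi_eq i hi
    have hF : ∀ r ∈ (P.filter (fun p => p ∣ i)).erase (q i), r.Prime ∧ r ≠ 2 ∧ r ∣ i / q i ∧
        ¬ r ^ 2 ∣ i / q i := by
      intro r hr
      rw [Finset.mem_erase, Finset.mem_filter] at hr
      obtain ⟨hne, hrP, hri⟩ := hr
      obtain ⟨h5, h6, h7, h8⟩ := hP r hrP
      refine ⟨h5, by omega, ?_, ?_⟩
      · have h9 : r ∣ q i * (i / q i) := by rw [hi_eq i hi]; exact hri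
        exact ((Nat.coprime_primes h5 h1).2 hne).dvd_of_dvd_mul_left h9
      · intro h
        exact hsq r hrP hri (h.trans (Nat.div_dvd_of_dvd (hqd i hi)))
    have hFc : 10 ≤ ((P.filter (fun p => p ∣ i)).erase (q i)).card := by
      rw [Finset.card_erase_of_mem (Finset.mem_filter.2 ⟨hqP i hi, hqd i hi⟩)]
      unfold om at h11
      omega
    have hmain := pair_good S c h0 hc0 hmin L N M (q i) (i / q i) h1 (by omega) h4 hm0 hpm
      (by rw [hi_eq i hi]; exact hiN) hNM (hbd' _ (hqP i hi) (hqd i hi)) _ hF hFc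
    rw [hi_eq i hi] at hmain
    rw [errT_eq]
    exact hmain
  have herr : ∑ i ∈ G, errT S c L N M (q i) (i / q i) ≤
      (∑ k ∈ S.erase 0, ‖c k‖) * (M * (N * mu * (lam + 2 / (lam * L)))) := by
    have h1 : ∑ i ∈ G, errT S c L N M (q i) (i / q i) ≤
        ∑ p ∈ P, ∑ m ∈ Icc 1 (N / p), errT S c L N M p m := by
      have hinj : Set.InjOn (fun i => (⟨q i, i / q i⟩ : (_ : ℕ) × ℕ)) (G : Set ℕ) := by
        intro i hi j hj hij
        simp only [Sigma.mk.injEq, heq_eq_eq] at hij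
        rw [← hi_eq i hi, ← hi_eq j hj, hij.1]
        rw [hij.1] at hij
        rw [hij.2]
      rw [Finset.sum_sigma' P (fun p => Icc 1 (N / p)) (fun p m => errT S c L N M p m)]
      have h2 : ∑ i ∈ G, errT S c L N M (q i) (i / q i) =
          ∑ x ∈ G.image (fun i => (⟨q i, i / q i⟩ : (_ : ℕ) × ℕ)), errT S c L N M x.1 x.2 := by
        rw [Finset.sum_image hinj]
      rw [h2]
      apply Finset.sum_le_sum_of_subset_of_nonneg
      · intro x hx
        rw [Finset.mem_image] at hx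
        obtain ⟨i, hi, rfl⟩ := hx
        rw [Finset.mem_sigma, Finset.mem_Icc]
        have hi' := (Finset.mem_filter.1 hi).1
        rw [Finset.mem_Ioc] at hi'
        have h2 := (hP _ (hqP i hi)).1
        refine ⟨hqP i hi, ?_, ?_⟩
        · exact Nat.div_pos (Nat.le_of_dvd hi'.1 (hqd i hi)) h2.pos
        · exact Nat.div_le_div_right hi'.2
      · intro x _ _
        exact errT_nonneg _ _ _ _ _ _ _
    refine h1.trans ?_
    have h2 : ∀ p ∈ P, ∑ m ∈ Icc 1 (N / p), errT S c L N M p m ≤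
        (∑ k ∈ S.erase 0, ‖c k‖) * (M * (N * (lam + 2 / (lam * L)))) * (1 / (p : ℝ)) := by
      intro p hp
      obtain ⟨h3, h4, h5, h6⟩ := hP p hp
      haveI : NeZero p := ⟨h3.ne_zero⟩
      simp_rw [errT_eq]
      have hp0 : (0 : ℝ) < p := by exact_mod_cast h3.pos
      have hpY : p ≤ N / p := by
        rw [Nat.le_div_iff_mul_le h3.pos]
        exact (Nat.mul_le_mul h5 h5).trans hZ
      have h7 : ∀ k ∈ S.erase 0, ¬ (p : ℤ) ∣ k := by
        intro k hk hdvd
        have h8 := hyS k hk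
        have h9 := (Finset.mem_erase.1 hk).1
        have h10 := Int.natAbs_dvd_natAbs.2 hdvd
        rw [Int.natAbs_natCast] at h10
        have h11 := Nat.le_of_dvd (Int.natAbs_pos.2 h9) h10
        omega
      refine (sum_err S c L N M p (N / p) h3 (by omega) h6 hpY h7 lam hlam).trans ?_
      rw [mul_assoc]
      apply mul_le_mul_of_nonneg_left _ (Finset.sum_nonneg (fun k _ => norm_nonneg _))
      rw [mul_assoc]
      apply mul_le_mul_of_nonneg_left _ (Nat.cast_nonneg _)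
      have h9 : ((N / p : ℕ) : ℝ) ≤ N / p := Nat.cast_div_le
      have h8 := (ell_spec h6).2.1
      have h10 : (L : ℝ) ≤ (ell L p : ℝ) := by exact_mod_cast h8.le
      have h11 : 2 * ((N / p : ℕ) : ℝ) / (lam * (ell L p : ℝ)) ≤ 2 * (N / p) / (lam * L) := by
        apply div_le_div₀ (by positivity) (by linarith) (by positivity)
        exact mul_le_mul_of_nonneg_left h10 hlam.le
      calc lam * ((N / p : ℕ) : ℝ) + 2 * ((N / p : ℕ) : ℝ) / (lam * (ell L p : ℝ))
          ≤ lam * (N / p) + 2 * (N / p) / (lam * L) :=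
            add_le_add (mul_le_mul_of_nonneg_left h9 hlam.le) h11
        _ = _ := by field_simp
    refine (Finset.sum_le_sum h2).trans (le_of_eq ?_)
    rw [← Finset.mul_sum, ← hmu]
    ring
  -- conclusion
  have hfin : ∑ i ∈ G, (i : ℝ) * ((c 0).re * ((M : ℝ) * (31 / 32)) - errT S c L N M (q i) (i / q i)) ≤
      ∑ n ∈ Ioc N (N + M), ∑ i ∈ Ioc 0 N, ((2 ^ n % i : ℕ) : ℝ) := by
    rw [Finset.sum_comm]
    calc ∑ i ∈ G, (i : ℝ) * ((c 0).re * ((M : ℝ) * (31 / 32)) - errT S c L N M (q i) (i / q i))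
        ≤ ∑ i ∈ G, ∑ n ∈ Ioc N (N + M), ((2 ^ n % i : ℕ) : ℝ) := by
          apply Finset.sum_le_sum
          intro i hi
          have hi' := (Finset.mem_filter.1 hi).1
          rw [Finset.mem_Ioc] at hi'
          have h1 : ∑ n ∈ Ioc N (N + M), ((2 ^ n % i : ℕ) : ℝ) = i * ∑ n ∈ Ioc N (N + M), fr n i := by
            rw [Finset.mul_sum]
            apply Finset.sum_congr rfl
            intro n _
            exact mod_eq n i hi'.1
          rw [h1]
          exact mul_le_mul_of_nonneg_left (hper i hi) (Nat.cast_nonneg _)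
      _ ≤ _ := by
          apply Finset.sum_le_sum_of_subset_of_nonneg (Finset.filter_subset _ _)
          intro i _ _
          exact Finset.sum_nonneg (fun n _ => by positivity)
  refine le_trans ?_ hfin
  have h1 : ∑ i ∈ G, (i : ℝ) * ((c 0).re * ((M : ℝ) * (31 / 32)) - errT S c L N M (q i) (i / q i)) =
      (c 0).re * ((M : ℝ) * (31 / 32)) * ∑ i ∈ G, (i : ℝ) -
        ∑ i ∈ G, (i : ℝ) * errT S c L N M (q i) (i / q i) := by
    rw [Finset.mul_sum, ← Finset.sum_sub_distrib]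
    apply Finset.sum_congr rfl
    intro i _
    ring
  rw [h1]
  have h2 : ∑ i ∈ G, (i : ℝ) * errT S c L N M (q i) (i / q i) ≤
      N * ∑ i ∈ G, errT S c L N M (q i) (i / q i) := by
    rw [Finset.mul_sum]
    apply Finset.sum_le_sum
    intro i hi
    apply mul_le_mul_of_nonneg_right _ (errT_nonneg _ _ _ _ _ _ _)
    have hi' := (Finset.mem_filter.1 hi).1
    rw [Finset.mem_Ioc] at hi'
    exact_mod_cast hi'.2
  have h3 := mul_le_mul_of_nonneg_left herr (Nat.cast_nonneg (α := ℝ) N)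
  have h4 := mul_le_mul_of_nonneg_left hGsum
    (show 0 ≤ (c 0).re * ((M : ℝ) * (31 / 32)) by positivity)
  linarith

end Pool.Agent.R518.RS
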