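import Mathlib
import Pool.Agent.R518.RS.Final

/-! The asymptotic lower bound. -/

set_option autoImplicit false

open Finset Filter

namespace Pool.Agent.R518.RS

theorem lower_asym : ∃ A : ℕ, 1 ≤ A ∧ ∀ᶠ s : ℕ in atTop,
    0.21 * ((2 ^ (12 * A * s ^ 4 - 4) : ℕ) : ℝ) * ((2 ^ (12 * A * s ^ 4) : ℕ) : ℝ) ^ 2 ≤
      ∑ n ∈ Ioc (2 ^ (12 * A * s ^ 4)) (2 ^ (12 * A * s ^ 4) + 2 ^ (12 * A * s ^ 4 - 4)),
        ∑ i ∈ Ioc 0 (2 ^ (12 * A * s ^ 4)), ((2 ^ n % i : ℕ) : ℝ) := by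
  obtain ⟨S, c, h0, hc0, hmin⟩ := minorant
  obtain ⟨A, hAexp⟩ : ∃ A : ℕ, Real.exp 401 ≤ A := ⟨_, Nat.le_ceil _⟩
  have hA1r : (1 : ℝ) ≤ A := by
    have := Real.one_le_exp (by norm_num : (0 : ℝ) ≤ 401)
    linarith
  have hA1 : 1 ≤ A := by exact_mod_cast hA1r
  have hlogA : 401 ≤ Real.log A := by
    rw [Real.le_log_iff_exp_le (by linarith)]; exact hAexp
  have hlogA' : Real.log A + 1 ≤ 2 * A := by
    have := Real.log_le_sub_one_of_pos (by linarith : (0 : ℝ) < A)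
    linarith
  refine ⟨A, hA1, ?_⟩
  obtain ⟨K1, hK1⟩ : ∃ K1, K1 = ∑ k ∈ S.erase 0, ‖c k‖ := ⟨_, rfl⟩
  have hK10 : 0 ≤ K1 := by rw [hK1]; exact Finset.sum_nonneg (fun k _ => norm_nonneg _)
  obtain ⟨lam, hlam⟩ : ∃ lam : ℝ, lam = 0.005 / ((K1 + 1) * (2 * A)) := ⟨_, rfl⟩
  have hlam0 : 0 < lam := by rw [hlam]; positivity
  obtain ⟨T0, hT0⟩ : ∃ T0 : ℝ, T0 = K1 * (2 * A) * (2 / lam) / 0.005 := ⟨_, rfl⟩
  filter_upwards [sum_PS A hA1, eventually_ge_atTop (10 + 28000 * A ^ 2 + ⌈T0⌉₊ +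
    ∑ k ∈ S, k.natAbs)] with s hsum hs
  have hs10 : 10 ≤ s := by omega
  have hsr : (10 : ℝ) ≤ s := by exact_mod_cast hs10
  have hsA : 28000 * (A : ℝ) ^ 2 ≤ s := by
    have : 28000 * A ^ 2 ≤ s := by omega
    exact_mod_cast this
  have hsT : T0 ≤ s := by
    have h1 : T0 ≤ (⌈T0⌉₊ : ℝ) := Nat.le_ceil T0
    have h2 : ((⌈T0⌉₊ : ℕ) : ℝ) ≤ s := by exact_mod_cast (by omega : ⌈T0⌉₊ ≤ s)
    linarith
  have hs4 : s ≤ s ^ 4 := Nat.le_self_pow (by norm_num) s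
  obtain ⟨y, hy⟩ : ∃ y : ℕ, y = 2 ^ (6 * s ^ 4) := ⟨_, rfl⟩
  obtain ⟨Z, hZ⟩ : ∃ Z : ℕ, Z = 2 ^ (6 * A * s ^ 4) := ⟨_, rfl⟩
  obtain ⟨N, hN⟩ : ∃ N : ℕ, N = 2 ^ (12 * A * s ^ 4) := ⟨_, rfl⟩
  obtain ⟨M, hM⟩ : ∃ M : ℕ, M = 2 ^ (12 * A * s ^ 4 - 4) := ⟨_, rfl⟩
  rw [← hN, ← hM]
  have hAs : s ≤ A * s ^ 4 := by nlinarith
  have hNM : N = 16 * M := by
    rw [hN, hM]
    have h1 : 12 * A * s ^ 4 = (12 * A * s ^ 4 - 4) + 4 := by
      have : 12 * A * s ^ 4 = 12 * (A * s ^ 4) := by ring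
      omega
    conv_lhs => rw [h1, pow_add]
    ring
  have hZZ : Z * Z = N := by
    rw [hZ, hN, ← pow_add]
    congr 1
    ring
  have hys : s < y := by
    rw [hy]
    calc s < 2 ^ s := Nat.lt_two_pow_self
      _ ≤ 2 ^ (6 * s ^ 4) := Nat.pow_le_pow_right (by norm_num) (by omega)
  have hy1000 : 1000 ≤ y := by
    have : 28000 * 1 ≤ 28000 * A ^ 2 := Nat.mul_le_mul_left _ (Nat.one_le_pow _ _ hA1)
    omega
  have hZ20 : 20 ≤ Z := by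
    rw [hZ]
    have h1 : 10 ≤ 6 * A * s ^ 4 := by
      have : 6 * A * s ^ 4 = 6 * (A * s ^ 4) := by ring
      omega
    calc 20 ≤ 2 ^ 10 := by norm_num
      _ ≤ 2 ^ (6 * A * s ^ 4) := Nat.pow_le_pow_right (by norm_num) h1
  obtain ⟨mu, hmu⟩ : ∃ mu : ℝ, mu = ∑ p ∈ PS A s, 1 / (p : ℝ) := ⟨_, rfl⟩
  rw [← hmu] at hsum
  have hmu400 : 400 ≤ mu := by linarith [hsum.1]
  have hmuA : mu ≤ 2 * A := by linarith [hsum.2]
  have hmain := lower_fin S c h0 (by linarith) hmin (PS A s) (s ^ 6) N M y Z (by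
      intro p hp
      rw [mem_PS, ← hy, ← hZ] at hp
      exact ⟨hp.2.1, hp.1.1, hp.1.2, hp.2.2⟩) (by omega) (by
      intro k hk
      have h1 : k.natAbs ≤ ∑ k ∈ S, k.natAbs := Finset.single_le_sum (f := fun k : ℤ => k.natAbs)
        (fun _ _ => Nat.zero_le _) (Finset.mem_of_mem_erase hk)
      omega) hZZ.le hNM (by positivity) lam hlam0 mu hmu (by linarith)
  rw [← hK1] at hmain
  refine le_trans ?_ hmain
  have hNpos : (0 : ℝ) < N := by rw [hN]; positivity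
  have hMpos : (0 : ℝ) < M := by rw [hM]; positivity
  have hbd1 : 4 * ((N : ℝ) + 2 * Z) / mu ≤ 0.011 * N := by
    rw [div_le_iff₀ (by linarith)]
    have h1 : (20 : ℝ) ≤ Z := by exact_mod_cast hZ20
    have h2 : (Z : ℝ) * Z = N := by exact_mod_cast hZZ
    have h3 : 2 * (Z : ℝ) ≤ 0.1 * N := by nlinarith
    nlinarith
  have hbd2 : (N : ℝ) / y ≤ 0.001 * N := by
    rw [div_le_iff₀ (by positivity)]
    have h1 : (1000 : ℝ) ≤ y := by exact_mod_cast hy1000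
    nlinarith
  have hL6 : (((s ^ 6 : ℕ)) : ℝ) = (s : ℝ) ^ 6 := by push_cast; ring
  have hbd3 : (N : ℝ) * mu / ((s ^ 6 : ℕ) : ℝ) * (2 + Real.log N) ≤ 0.001 * N := by
    have hlogN : Real.log N ≤ 12 * A * (s : ℝ) ^ 4 := by
      rw [hN]
      push_cast
      rw [Real.log_pow]
      push_cast
      have h1 : Real.log 2 ≤ 1 := by have := Real.log_two_lt_d9; linarith
      have h2 : (0 : ℝ) ≤ 12 * A * (s : ℝ) ^ 4 := by positivity
      nlinarith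
    have h1 : 2 + Real.log N ≤ 14 * A * (s : ℝ) ^ 4 := by
      have h2 : (1 : ℝ) ≤ (s : ℝ) ^ 4 := one_le_pow₀ (by linarith)
      have h3 : (1 : ℝ) ≤ A * (s : ℝ) ^ 4 := by nlinarith
      nlinarith
    rw [hL6]
    have h2 : (N : ℝ) * mu / (s : ℝ) ^ 6 * (2 + Real.log N) ≤
        (N : ℝ) * (2 * A) / (s : ℝ) ^ 6 * (14 * A * (s : ℝ) ^ 4) := by
      apply mul_le_mul _ h1 _ (by positivity)
      · apply div_le_div_of_nonneg_right _ (by positivity)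
        exact mul_le_mul_of_nonneg_left hmuA hNpos.le
      · have : 0 ≤ Real.log N := Real.log_natCast_nonneg N
        linarith
    refine h2.trans ?_
    have h3 : (N : ℝ) * (2 * A) / (s : ℝ) ^ 6 * (14 * A * (s : ℝ) ^ 4) =
        N * (28 * (A : ℝ) ^ 2 / (s : ℝ) ^ 2) := by field_simp; ring
    rw [h3, mul_comm]
    apply mul_le_mul_of_nonneg_right _ hNpos.le
    rw [div_le_iff₀ (by positivity)]
    nlinarith
  have herr : K1 * (mu * (lam + 2 / (lam * ((s ^ 6 : ℕ) : ℝ)))) ≤ 0.01 := by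
    have h1 : K1 * (mu * lam) ≤ 0.005 := by
      have h2 : K1 * (mu * lam) ≤ (K1 + 1) * ((2 * A) * lam) := by
        apply mul_le_mul (by linarith) _ (by positivity) (by positivity)
        exact mul_le_mul_of_nonneg_right hmuA hlam0.le
      have h3 : (K1 + 1) * ((2 * A) * lam) = 0.005 := by
        rw [hlam]; field_simp
      linarith
    have h2 : K1 * (mu * (2 / (lam * ((s ^ 6 : ℕ) : ℝ)))) ≤ 0.005 := by
      have h3 : K1 * (mu * (2 / (lam * ((s ^ 6 : ℕ) : ℝ)))) ≤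
          K1 * ((2 * A) * (2 / (lam * ((s ^ 6 : ℕ) : ℝ)))) := by
        apply mul_le_mul_of_nonneg_left _ hK10
        apply mul_le_mul_of_nonneg_right hmuA (by positivity)
      have h4 : K1 * ((2 * A) * (2 / (lam * ((s ^ 6 : ℕ) : ℝ)))) = 0.005 * T0 / (s : ℝ) ^ 6 := by
        rw [hT0, hL6]; field_simp
      rw [h4] at h3
      refine h3.trans ?_
      rw [div_le_iff₀ (by positivity)]
      have h5 : (s : ℝ) ≤ (s : ℝ) ^ 6 := le_self_pow₀ (by linarith) (by norm_num)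
      nlinarith
    have h3 : K1 * (mu * (lam + 2 / (lam * ((s ^ 6 : ℕ) : ℝ)))) =
        K1 * (mu * lam) + K1 * (mu * (2 / (lam * ((s ^ 6 : ℕ) : ℝ)))) := by ring
    rw [h3]; linarith
  have hbd : (0.487 : ℝ) * (N : ℝ) ^ 2 ≤ (N : ℝ) ^ 2 / 2 - N * (4 * (N + 2 * Z) / mu + N / y +
        N * mu / ((s ^ 6 : ℕ) : ℝ) * (2 + Real.log N)) := by
    have h1 : (N : ℝ) * (4 * (N + 2 * Z) / mu + N / y +
        N * mu / ((s ^ 6 : ℕ) : ℝ) * (2 + Real.log N)) ≤ N * (0.013 * N) := by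
      apply mul_le_mul_of_nonneg_left _ hNpos.le
      linarith
    nlinarith
  have hfirst : 0.2264 * (M : ℝ) * (N : ℝ) ^ 2 ≤ (c 0).re * ((M : ℝ) * (31 / 32)) *
      ((N : ℝ) ^ 2 / 2 - N * (4 * (N + 2 * Z) / mu + N / y +
        N * mu / ((s ^ 6 : ℕ) : ℝ) * (2 + Real.log N))) := by
    have h1 : (0.465 : ℝ) * M ≤ (c 0).re * ((M : ℝ) * (31 / 32)) := by nlinarith
    have h2 := mul_le_mul h1 hbd (by positivity) (by positivity)
    have h3 : (0 : ℝ) < M * (N : ℝ) ^ 2 := by positivity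
    nlinarith
  have hsecond : (N : ℝ) * (K1 * (M * (N * mu * (lam + 2 / (lam * ((s ^ 6 : ℕ) : ℝ)))))) ≤
      0.01 * M * (N : ℝ) ^ 2 := by
    have h1 : (N : ℝ) * (K1 * (M * (N * mu * (lam + 2 / (lam * ((s ^ 6 : ℕ) : ℝ)))))) =
        (M * (N : ℝ) ^ 2) * (K1 * (mu * (lam + 2 / (lam * ((s ^ 6 : ℕ) : ℝ))))) := by ring
    rw [h1]
    have h3 : (0 : ℝ) < M * (N : ℝ) ^ 2 := by positivity
    have := mul_le_mul_of_nonneg_left herr h3.le
    linarith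
  have h3 : (0 : ℝ) < M * (N : ℝ) ^ 2 := by positivity
  nlinarith

/-- For infinitely many `n` the remainder sum is at least `0.185 n^2`. -/
theorem freq : ∀ n0 : ℕ, ∃ n, n0 ≤ n ∧
    0.185 * (n : ℝ) ^ 2 ≤ ((∑ i ∈ Icc 1 n, 2 ^ n % i : ℕ) : ℝ) := by
  intro n0
  by_contra hcon
  push Not at hcon
  obtain ⟨A, hA1, hev⟩ := lower_asym
  obtain ⟨s, hs, hsn⟩ := (hev.and (eventually_ge_atTop (n0 + 1))).exists
  obtain ⟨N, hN⟩ : ∃ N : ℕ, N = 2 ^ (12 * A * s ^ 4) := ⟨_, rfl⟩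
  obtain ⟨M, hM⟩ : ∃ M : ℕ, M = 2 ^ (12 * A * s ^ 4 - 4) := ⟨_, rfl⟩
  rw [← hN, ← hM] at hs
  have hAs : s ≤ A * s ^ 4 := by
    have : s ≤ s ^ 4 := Nat.le_self_pow (by norm_num) s
    nlinarith
  have hNM : N = 16 * M := by
    rw [hN, hM]
    have h1 : 12 * A * s ^ 4 = (12 * A * s ^ 4 - 4) + 4 := by
      have : 12 * A * s ^ 4 = 12 * (A * s ^ 4) := by ring
      omega
    conv_lhs => rw [h1, pow_add]
    ring
  have hNn0 : n0 ≤ N := by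
    have h1 : s < 2 ^ s := Nat.lt_two_pow_self
    have h2 : 2 ^ s ≤ N := by
      rw [hN]
      apply Nat.pow_le_pow_right (by norm_num)
      have : 12 * A * s ^ 4 = 12 * (A * s ^ 4) := by ring
      omega
    omega
  have hNpos : (0 : ℝ) < N := by rw [hN]; positivity
  have hMpos : (0 : ℝ) < M := by rw [hM]; positivity
  have hup : ∀ n ∈ Ioc N (N + M), ∑ i ∈ Ioc 0 N, ((2 ^ n % i : ℕ) : ℝ) ≤ 0.209 * (N : ℝ) ^ 2 := by
    intro n hn
    rw [Finset.mem_Ioc] at hn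
    have h1 := hcon n (by omega)
    have h2 : ∑ i ∈ Ioc 0 N, ((2 ^ n % i : ℕ) : ℝ) ≤ ((∑ i ∈ Icc 1 n, 2 ^ n % i : ℕ) : ℝ) := by
      rw [Nat.cast_sum]
      apply Finset.sum_le_sum_of_subset_of_nonneg
      · intro i hi
        rw [Finset.mem_Ioc] at hi
        rw [Finset.mem_Icc]
        omega
      · intro i _ _; positivity
    have h3 : (n : ℝ) ≤ 17 / 16 * N := by
      have h4 : (n : ℝ) ≤ N + M := by exact_mod_cast hn.2
      have h5 : (N : ℝ) = 16 * M := by exact_mod_cast hNM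
      linarith
    have h4 : (n : ℝ) ^ 2 ≤ (17 / 16 * N) ^ 2 := pow_le_pow_left₀ (Nat.cast_nonneg _) h3 2
    nlinarith
  have h5 := Finset.sum_le_sum hup
  rw [Finset.sum_const, Nat.card_Ioc, nsmul_eq_mul] at h5
  have h6 : ((N + M - N : ℕ) : ℝ) = M := by
    have : N + M - N = M := by omega
    rw [this]
  rw [h6] at h5
  have h7 : (0 : ℝ) < M * (N : ℝ) ^ 2 := by positivity
  have h8 := hs.trans h5
  nlinarith

end Pool.Agent.R518.RS
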